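import Mathlib
import Pool.Agent.H508.N.Rg
import Pool.Agent.H508.N.Tw
import Pool.Agent.H508.N.My
import Pool.Agent.H508.N.Ln

/-!
# The rank form of the Birch and Swinnerton-Dyer conjecture for more than half of the curves
# `x³ + y³ = 3 m`: the 3-converse for every `m`, the exact law, the joint law

`m > 1` is cube-free and all its prime factors are `1` modulo `3` (`InClass`).  `E_m : y² = x³ + 144 m²`
(isomorphic over `ℚ` to `y² + 3 m y = x³`, `curve m`) and `E'_m : y² = x³ - 3888 m²`, the cubic curve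
`x³ + y³ = 3 m`, are `3`-isogenous; they have wild reduction at `3` and complex multiplication.

A splitting of `3 m` is a factorization `3 m = d₀ d₁ d₂` into coprime positive numbers such that
`d₁ d₂²`, `d₂ d₀²`, `d₀ d₁²` are cubes modulo the primes dividing `d₀`, `d₁`, `d₂`.  `m` has the corank
`r` if there are exactly `3 ^ (r + 1)` splittings (`Corank`); corank `0`: only the three trivial ones.

(1) **The 3-converse.**  Every `m` of the class has a unique corank `r`, and the rank of `E_m(ℚ)` is at most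
    `2 r`.  `E_m(ℚ)` is finite and `Ш(E_m/ℚ)` has no element of order `3` (`Trivial3`) if and only if `m` has
    the corank `0`, and in this case the statement of the problem holds, with both sides `0`, for ALL
    the integral equations `y² = x³ + a x + b` of BOTH curves `E_m`, `E'_m` (`RankForm`), the
    `3`-primary part of `Ш(E_m/ℚ)` is trivial, and `x³ + y³ = 3 m` has only finitely many rational
    solutions.
(2) **The exact law.**  `m` runs through ALL the numbers of the class (`family`); there are at least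
    `c X / √log X` of them up to `X`.  The share (natural density) of the `m` of corank `r` is exactly
    `p_r = 3 ^ (-r²) ∏_{i ≥ 1} (1 - 3^{-i}) / ∏_{1 ≤ i ≤ r} (1 - 3^{-i})²`, `∑ p_r = 1`.
(3) So `E_m(ℚ)` is finite and `Ш(E_m/ℚ)[3] = 0` for exactly `p_0 = 0.5601… ` of the `m`; the statement of the
    problem, with `L(C, 1) ≠ 0`, holds for all integral equations of both curves for more than `56 %`,
    and the rank is at most `2` for more than `98 %` of the `m`.
(4) **The joint law.**  `A_1, …, A_k` are different, each `1` or in the class, and `D` runs through the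
    numbers of the class which are prime to them (`primeTo A`).  The coranks of `A_1 D, …, A_k D` are
    independent: `A_i D` has the corank `r_i` for all `i` for exactly the share `∏ p_{r_i}` of the `D`, and the
    set of the `i` with `Trivial3 (A_i D)` is `T` for exactly the share `p_0^{#T} (1 - p_0)^{k - #T}`.  The
    statement of the problem holds for all the integral equations of all the `2 k` curves `E_{A_i D}`,
    `E'_{A_i D}` for the share `p_0^k` of the `D` at least.  And for almost all `D` it holds for `56 %` of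
    the `i`: if `δ > 0` and `k > 1 / (4 δ³)`, then for `X` large at least the proportion `1 - δ` of the
    `D ≤ X` is such that it holds for both curves `E_{A_i D}`, `E'_{A_i D}` for at least `(p_0 - δ) k` of the
    indices `i`.

The L-values modulo powers of `√-3`, the descent at the wild prime `3` and the joint law for squarefree
`D` are the engine of helper462 (`Pool/Agent/H462/N9`, `Pool/Agent/H462/QJ`;
`MP_8b7eba_nt.CubeSumCurves`, `MP_9c97e9_nt.CubeSumThreePart`).  New here (`Pool/Agent/H508/N`): the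
rank form in the terms of the problem for all integral equations, the second curve of the isogeny
class, the 3-converse for the rank form, the coranks and the bound of the rank for every cube-free
`m`, and the laws over all the cube-free numbers (a mixture over the square parts).
-/

set_option autoImplicit false

open Filter
open scoped Classical

namespace Pool.Agent.Results.MP_696deb_nt.CubeSumRankForm

open Pool.Agent.TH841.SH.D (Sha)

/-! ### the problem's definitions -/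

/-- `y² = x³ + a x + b` -/
abbrev E (a b : ℤ) : WeierstrassCurve ℚ := ⟨0, 0, 0, (a : ℚ), (b : ℚ)⟩

/-- `N_p`: the number of pairs `(x, y) ∈ (ℤ/p)²` with `y² = x³ + a x + b`. -/
noncomputable def pointCount (a b : ℤ) (p : ℕ) : ℕ :=
  Nat.card {q : ZMod p × ZMod p // q.2 ^ 2 = q.1 ^ 3 + (a : ZMod p) * q.1 + (b : ZMod p)}

/-- `F` is the `L`-function of `y² = x³ + a x + b` (in the form of the problem): it is entire and for
`Re s > 3/2` it is the incomplete product `∏_{p ∤ 2Δ} (1 - a_p p^{-s} + p^{1-2s})⁻¹`, `a_p = p - N_p`,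
`Δ = -4 a³ - 27 b²`. -/
def IsL (a b : ℤ) (F : ℂ → ℂ) : Prop :=
  Differentiable ℂ F ∧ ∀ s : ℂ, (3 : ℝ) / 2 < s.re →
    HasProd (fun p : ℕ => if p.Prime ∧ ¬ ((p : ℤ) ∣ 2 * (-4 * a ^ 3 - 27 * b ^ 2)) then
      (1 - ((p : ℂ) - (pointCount a b p : ℂ)) * (p : ℂ) ^ (-s) + (p : ℂ) ^ (1 - 2 * s))⁻¹ else 1)
      (F s)

/-- The statement of the problem for `y² = x³ + a x + b`, with the additional information that both
sides are `0`: the equation is non-singular, the `L`-function exists, its order of vanishing at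
`s = 1` is the rank of `E(ℚ)`, the rank is `0`, and `E(ℚ)` is finite. -/
def BSDRankZero (a b : ℤ) : Prop :=
  4 * a ^ 3 + 27 * b ^ 2 ≠ 0 ∧ Finite (E a b).toAffine.Point ∧ ∃ F : ℂ → ℂ, IsL a b F ∧
    analyticOrderAt F 1 = ((Module.finrank ℤ (E a b).toAffine.Point : ℕ) : ℕ∞) ∧
    Module.finrank ℤ (E a b).toAffine.Point = 0

/-! ### the curves -/

/-- `y² = x³ + a x + b` is an equation of the curve `y² = x³ + c m²`: there is a change of variables over
`ℚ` which maps one to the other. -/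
def Equation (c : ℤ) (m : ℕ) (a b : ℤ) : Prop :=
  ∃ C : WeierstrassCurve.VariableChange ℚ, C • E a b = E 0 (c * (m : ℤ) ^ 2)

/-- The statement of the problem holds for all the integral equations of `E_m : y² = x³ + 144 m²` and of
`E'_m : y² = x³ - 3888 m²`, with both sides `0`. -/
def RankForm (m : ℕ) : Prop :=
  ∀ a b : ℤ, Equation 144 m a b ∨ Equation (-3888) m a b → BSDRankZero a b

/-- The rank of `E_m : y² = x³ + 144 m²` is finite and at most `n`, for all the integral equations. -/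
def RankLe (m n : ℕ) : Prop := ∀ a b : ℤ, Equation 144 m a b →
  Module.Finite ℤ (E a b).toAffine.Point ∧ Module.finrank ℤ (E a b).toAffine.Point ≤ n

/-- `m > 1` is cube-free and all prime factors of `m` are `1` modulo `3`. -/
def InClass (m : ℕ) : Prop :=
  1 < m ∧ (∀ p : ℕ, p.Prime → p ∣ m → p % 3 = 1) ∧ ∀ p : ℕ, p.Prime → ¬ p ^ 3 ∣ m

/-- The curve `y² + 3 m y = x³`, isomorphic to `E_m`. -/
def curve (m : ℕ) : WeierstrassCurve ℚ := ⟨0, 0, 3 * (m : ℚ), 0, 0⟩

/-- `E_m(ℚ)` is finite and `Ш(E_m/ℚ)` has no element of order `3`. -/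
def Trivial3 (m : ℕ) : Prop :=
  Finite (curve m).toAffine.Point ∧ ∀ x : Sha (curve m), 3 • x = 0 → x = 0

/-- The factorizations `D = d₀ d₁ d₂` into coprime numbers such that `d_{c+1} d_{c+2}²` is a cube modulo
the primes which divide `d_c`. -/
def splittings (D : ℕ) : Set (ZMod 3 → ℕ) :=
  {d | ∏ c, d c = D ∧ (∀ c c', c ≠ c' → Nat.Coprime (d c) (d c')) ∧
    ∀ (c : ZMod 3) (p : ℕ), p.Prime → p ∣ d c →
      ∃ x : ℤ, (p : ℤ) ∣ (d (c + 1) : ℤ) * (d (c + 2) : ℤ) ^ 2 - x ^ 3}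

/-- `m` has the corank `r`: there are `3 ^ (r + 1)` splittings of `3 m`. -/
def Corank (m r : ℕ) : Prop := (splittings (3 * m)).ncard = 3 ^ (r + 1)

/-- The `m ≤ X` of the class. -/
def family (X : ℕ) : Set ℕ := {m | m ≤ X ∧ InClass m}

/-- The `D ≤ X` of the class which are prime to `A_1, …, A_k`. -/
def primeTo {k : ℕ} (A : Fin k → ℕ) (X : ℕ) : Set ℕ :=
  {D ∈ family X | ∀ i, Nat.Coprime D (A i)}

/-- `p_r = 3 ^ (-r²) ∏_{i ≥ 1} (1 - 3^{-i}) / ∏_{1 ≤ i ≤ r} (1 - 3^{-i})²`. -/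
noncomputable def p (r : ℕ) : ℝ :=
  (1 / 3 : ℝ) ^ (r ^ 2) * ((∏' i : ℕ, (1 - (1 / 3 : ℝ) ^ (i + 1))) /
    (∏ i ∈ Finset.range r, (1 - (1 / 3 : ℝ) ^ (i + 1))) ^ 2)

/-- The share of the numbers of `S X` with the property `P` tends to `w` for `X → ∞`. -/
def HasShare (S : ℕ → Set ℕ) (P : ℕ → Prop) (w : ℝ) : Prop :=
  Tendsto (fun X : ℕ => (({m ∈ S X | P m}.ncard : ℕ) : ℝ) / ((S X).ncard : ℝ)) atTop (nhds w)

/-! ### proofs -/

lemma cls {m : ℕ} (hm : InClass m) : Pool.Agent.H462.N9.Tam.Cls3 m :=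
  ⟨by have := hm.1; omega, by have := hm.1; omega, hm.2.1, hm.2.2⟩

lemma fam {X m : ℕ} (hm : m ∈ family X) : InClass m := hm.2

lemma equ {c : ℤ} {m : ℕ} {a b : ℤ} (h : Equation c m a b) :
    a = 0 ∧ ∃ g : ℚ, g ≠ 0 ∧ (b : ℚ) = (c : ℚ) * (m : ℚ) ^ 2 * g ^ 6 := by
  obtain ⟨C, hC⟩ := h
  have hu : (C.u : ℚ) ≠ 0 := C.u.ne_zero
  have h1 := congrArg WeierstrassCurve.a₁ hC
  have h2 := congrArg WeierstrassCurve.a₂ hC
  have h3 := congrArg WeierstrassCurve.a₃ hC
  have h4 := congrArg WeierstrassCurve.a₄ hC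
  have h6 := congrArg WeierstrassCurve.a₆ hC
  rw [WeierstrassCurve.variableChange_a₁] at h1
  rw [WeierstrassCurve.variableChange_a₂] at h2
  rw [WeierstrassCurve.variableChange_a₃] at h3
  rw [WeierstrassCurve.variableChange_a₄] at h4
  rw [WeierstrassCurve.variableChange_a₆] at h6
  simp only [Units.val_inv_eq_inv_val, mul_zero, sub_zero, zero_add, add_zero] at h1 h2 h3 h4 h6
  have hs : C.s = 0 := by
    rcases mul_eq_zero.1 h1 with h | h
    · exact absurd h (inv_ne_zero hu)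
    · linarith
  rw [hs] at h2 h4
  have hr : C.r = 0 := by
    rcases mul_eq_zero.1 h2 with h | h
    · exact absurd h (pow_ne_zero _ (inv_ne_zero hu))
    · linarith
  rw [hr] at h4 h6
  have ht : C.t = 0 := by
    rcases mul_eq_zero.1 h3 with h | h
    · exact absurd h (pow_ne_zero _ (inv_ne_zero hu))
    · linarith
  rw [ht] at h4 h6
  constructor
  · have h5 : (C.u : ℚ)⁻¹ ^ 4 * (a : ℚ) = 0 := by
      rw [show ((0 : ℤ) : ℚ) = 0 from Int.cast_zero] at h4
      rw [← h4]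
      ring
    rcases mul_eq_zero.1 h5 with h | h
    · exact absurd h (pow_ne_zero _ (inv_ne_zero hu))
    · exact_mod_cast h
  · refine ⟨(C.u : ℚ), hu, ?_⟩
    have h5 : (C.u : ℚ)⁻¹ ^ 6 * (b : ℚ) = (c : ℚ) * (m : ℚ) ^ 2 := by
      push_cast at h6
      rw [← h6]
      ring
    rw [← h5, mul_right_comm, ← mul_pow, inv_mul_cancel₀ hu, one_pow, one_mul]

lemma curve_eq (m : ℕ) :
    Pool.Agent.Y703.CT.EQ (Pool.Agent.Y703.CT.WD ((3 * m : ℕ) : ℤ)) = curve m := by
  unfold curve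
  simp [Pool.Agent.Y703.CT.WD, WeierstrassCurve.map]

lemma bsd {b : ℤ} (h0 : b ≠ 0) (h1 : Finite (E 0 b).toAffine.Point) {F : ℂ → ℂ}
    (hF : Pool.Agent.H508.N.IsI 0 b F) (h2 : F 1 ≠ 0) : BSDRankZero 0 b := by
  have hr : Module.finrank ℤ (E 0 b).toAffine.Point = 0 := Pool.Agent.H508.N.finrank_fin
  have hF' : IsL 0 b F := by
    refine ⟨hF.1, fun s hs => ?_⟩
    have h3 := hF.2 s hs
    simp only [pointCount]
    convert h3 using 2
    split_ifs <;> rfl
  refine ⟨?_, h1, F, hF', ?_, hr⟩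
  · have : (27 * b ^ 2 : ℤ) ≠ 0 := mul_ne_zero (by norm_num) (pow_ne_zero _ h0)
    simpa using this
  · rw [hr, (hF.1.analyticAt 1).analyticOrderAt_eq_zero.2 h2]
    rfl

lemma cor_iff {m : ℕ} (hm : 1 < m) : Pool.Agent.Y703.CT.NoSplit (3 * m) ↔ Corank m 0 := by
  rw [Pool.Agent.H462.N9.Law.noSplit_iff (D := 3 * m) (by omega) (by omega)]
  constructor
  · intro h
    show (Pool.Agent.H462.N9.Law.Spl (3 * m)).ncard = 3 ^ (0 + 1)
    rw [h]
    norm_num
  · intro h
    have h5 : (Pool.Agent.H462.N9.Law.Spl (3 * m)).ncard = 3 ^ (0 + 1) := h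
    rw [h5]
    norm_num

/-- part (1) -/
theorem converse {m : ℕ} (hm : InClass m) :
    (Trivial3 m ↔ Corank m 0) ∧
    (Corank m 0 → RankForm m ∧ (∀ (n : ℕ) (x : Sha (curve m)), 3 ^ n • x = 0 → x = 0) ∧
      {q : ℚ × ℚ | q.1 ^ 3 + q.2 ^ 3 = 3 * (m : ℚ)}.Finite) := by
  obtain ⟨h1, h2⟩ := Pool.Agent.H508.N.rf_one (cls hm)
  have hcl : Pool.Agent.Y703.CT.Triv3 (3 * m) ↔ Trivial3 m := by
    unfold Pool.Agent.Y703.CT.Triv3 Trivial3
    rw [curve_eq]
    constructor
    · rintro ⟨k1, k2⟩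
      exact ⟨k1, fun x hx => k2 1 x (by rw [pow_one]; exact hx)⟩
    · rintro ⟨k1, k2⟩
      have k3 : ∀ (n : ℕ) (x : Sha (curve m)), 3 ^ n • x = 0 → x = 0 := by
        intro n
        induction n with
        | zero => intro x hx; rwa [pow_zero, one_smul] at hx
        | succ n ih =>
          intro x hx
          refine k2 x (ih (3 • x) ?_)
          rw [← mul_smul, ← pow_succ]
          exact hx
      exact ⟨k1, k3⟩
  refine ⟨(hcl.symm.trans h1).trans (cor_iff hm.1), fun hN => ?_⟩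
  replace hN := (cor_iff hm.1).2 hN
  obtain ⟨h3, h4⟩ := h2 hN
  refine ⟨fun a b hb => ?_, ?_, h4⟩
  · have h6 : a = 0 ∧ ((∃ g : ℚ, g ≠ 0 ∧ (b : ℚ) = 144 * (m : ℚ) ^ 2 * g ^ 6) ∨
        (∃ g : ℚ, g ≠ 0 ∧ (b : ℚ) = -3888 * (m : ℚ) ^ 2 * g ^ 6)) := by
      rcases hb with hb | hb
      · obtain ⟨h7, g, hg, h8⟩ := equ hb
        exact ⟨h7, Or.inl ⟨g, hg, by rw [h8]; push_cast; ring⟩⟩
      · obtain ⟨h7, g, hg, h8⟩ := equ hb
        exact ⟨h7, Or.inr ⟨g, hg, by rw [h8]; push_cast; ring⟩⟩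
    obtain ⟨rfl, h7⟩ := h6
    obtain ⟨k1, k2, F, k3, k4⟩ := h3 b h7
    exact bsd k1 k2 k3 k4
  · have h5 := (h1.2 hN).2
    rw [curve_eq] at h5
    exact h5

/-- the coranks and the rank, for each `m` -/
theorem each {m : ℕ} (hm : InClass m) :
    (∃! r, Corank m r) ∧ (∀ r, Corank m r → RankLe m (2 * r)) := by
  have hc : Pool.Agent.H508.N.CfM m := ⟨by have := hm.1; omega, hm.2.1, hm.2.2⟩
  have h1 := hm.1
  obtain ⟨r, hr⟩ := Pool.Agent.H508.N.exists_rw hc
  refine ⟨⟨r, hr, fun s hs => ?_⟩, fun s hs a b hb => ?_⟩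
  · have e : (3 : ℕ) ^ (s + 1) = 3 ^ (r + 1) := Eq.trans (Eq.symm hs) hr
    have := Nat.pow_right_injective (by norm_num : 2 ≤ 3) e
    omega
  · obtain ⟨rfl, g, hg, hb⟩ := equ hb
    obtain ⟨a1, a2⟩ := Pool.Agent.H508.N.rk_cf hc (by omega) hs
    have hD : (3 * m : ℕ) ≠ 0 := by omega
    obtain ⟨φ⟩ := Pool.Agent.H508.N.eqv_g hD hg (b := b) (by rw [hb]; push_cast; ring)
    refine ⟨Module.Finite.equiv φ.toIntLinearEquiv, ?_⟩
    rw [← φ.toIntLinearEquiv.finrank_eq]
    exact a2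

open Pool.Agent.H462.N9.Law (Spl) in
/-- the joint law -/
theorem joint {k : ℕ} {A : Fin k → ℕ} (hk : 0 < k) (hA : ∀ i, A i = 1 ∨ InClass (A i))
    (hinj : Function.Injective A) :
    (∃ c : ℝ, 0 < c ∧ ∃ X₀ : ℕ, ∀ X : ℕ, X₀ ≤ X →
      c * (X / Real.sqrt (Real.log X)) ≤ ((primeTo A X).ncard : ℝ)) ∧
    (∀ X, ∀ D ∈ primeTo A X, ∀ i, InClass (A i * D)) ∧
    ∀ r : Fin k → ℕ, HasShare (primeTo A) (fun D => ∀ i, Corank (A i * D) (r i)) (∏ i, p (r i)) := by
  have hA' : ∀ i, Pool.Agent.H462.QJ.CfQ (A i) := by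
    intro i
    rcases hA i with h | h
    · rw [h]
      exact Pool.Agent.H508.N.one_cf
    · exact ⟨by have := h.1; omega, h.2.1, h.2.2⟩
  have hset : ∀ X, Pool.Agent.H508.N.FaD A X = primeTo A X := by
    intro X
    ext D
    exact ⟨fun h => ⟨⟨h.1, h.2.1, h.2.2.1, h.2.2.2.1⟩, h.2.2.2.2⟩,
      fun h => ⟨h.1.1, h.1.2.1, h.1.2.2.1, h.1.2.2.2, h.2⟩⟩
  have : Nonempty (Fin k) := ⟨⟨0, hk⟩⟩
  refine ⟨?_, fun X D hD i => ?_, fun r => ?_⟩
  · obtain ⟨c, X₀, hc0, h⟩ := Pool.Agent.H508.N.faD_low hA'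
    refine ⟨c, hc0, max X₀ 3, fun X hX => ?_⟩
    rw [← hset]
    refine le_trans (le_of_eq ?_) (h X ((le_max_left _ _).trans hX))
    have hX3 : 3 ≤ X := (le_max_right _ _).trans hX
    have h1 : 0 < Real.log X := Real.log_pos (by exact_mod_cast (by omega : 1 < X))
    rw [Real.rpow_neg h1.le, ← Real.sqrt_eq_rpow, mul_assoc, div_eq_mul_inv]
  · have h1 := Pool.Agent.H508.N.cq_mul (hA' i)
      (⟨by have := hD.1.2.1; omega, hD.1.2.2.1, hD.1.2.2.2⟩ : Pool.Agent.H462.QJ.CfQ D) (hD.2 i)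
    refine ⟨?_, h1.2.1, h1.2.2⟩
    have h2 := hD.1.2.1
    have h3 : 0 < A i := Nat.pos_of_ne_zero (hA' i).1
    calc 1 < D := h2
      _ ≤ A i * D := Nat.le_mul_of_pos_left _ h3
  · refine (Pool.Agent.H508.N.lawD hA' hinj r).congr fun X => ?_
    rw [hset]
    rfl

/-- the law of the coranks -/
theorem law1 : (∃ c : ℝ, 0 < c ∧ ∃ X₀ : ℕ, ∀ X : ℕ, X₀ ≤ X →
      c * (X / Real.sqrt (Real.log X)) ≤ ((family X).ncard : ℝ)) ∧
    ∀ r : ℕ, HasShare family (fun m => Corank m r) (p r) := by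
  have hk : 0 < 1 := one_pos
  obtain ⟨h1, -, h2⟩ := joint (A := fun _ : Fin 1 => 1) hk (fun _ => Or.inl rfl)
    (fun i j _ => Subsingleton.elim i j)
  have hset : ∀ X, primeTo (fun _ : Fin 1 => 1) X = family X := by
    intro X
    ext D
    exact ⟨fun h => h.1, fun h => ⟨h, fun _ => Nat.coprime_one_right D⟩⟩
  constructor
  · obtain ⟨c, hc, X₀, h⟩ := h1
    exact ⟨c, hc, X₀, fun X hX => by rw [← hset]; exact h X hX⟩
  · intro r
    have h := h2 fun _ => r
    rw [Fin.prod_univ_one] at h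
    refine h.congr fun X => ?_
    rw [hset]
    congr 2
    congr 1
    ext m
    refine and_congr_right fun _ => ?_
    constructor
    · intro h
      have := h 0
      rwa [one_mul] at this
    · intro h i
      rwa [one_mul]

lemma fin_family (X : ℕ) : (family X).Finite := (Set.finite_Iic X).subset fun m hm => hm.1

lemma cor_unique {m r s : ℕ} (h1 : Corank m r) (h2 : Corank m s) : r = s := by
  have e : (3 : ℕ) ^ (r + 1) = 3 ^ (s + 1) := Eq.trans (Eq.symm h1) h2
  have := Nat.pow_right_injective (by norm_num : 2 ≤ 3) e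
  omega

/-- the share of the small coranks -/
theorem law_small (r : ℕ) :
    HasShare family (fun m => ∃ s ≤ r, Corank m s) (∑ s ∈ Finset.range (r + 1), p s) := by
  have h := tendsto_finsetSum (Finset.range (r + 1)) fun s _ => law1.2 s
  refine h.congr fun X => ?_
  rw [← Finset.sum_div]
  congr 1
  have e : {m ∈ family X | ∃ s ≤ r, Corank m s} =
      ⋃ s ∈ Finset.range (r + 1), {m ∈ family X | Corank m s} := by
    ext D
    simp only [Set.mem_iUnion, Finset.mem_range, exists_prop]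
    constructor
    · rintro ⟨h1, s, hs, h3⟩
      exact ⟨s, by omega, h1, h3⟩
    · rintro ⟨s, hs, h1, h3⟩
      exact ⟨h1, s, by omega, h3⟩
  rw [e, Pool.Agent.H462.T1.ncard_union (fun s => {m ∈ family X | Corank m s})
    (fun s => (fin_family X).subset fun D hD => hD.1) ?_]
  · push_cast
    rfl
  · intro s t hst
    rw [Set.disjoint_left]
    rintro D ⟨h1, h2⟩ ⟨-, h5⟩
    exact hst (cor_unique h2 h5)

open Pool.Agent.H462.N9.Law in
/-- **Main theorem.** -/
theorem result :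
    -- (1) the corank, the rank and the 3-converse, for each `m` of the class
    (∀ m : ℕ, InClass m →
      (∃! r, Corank m r) ∧ (∀ r, Corank m r → RankLe m (2 * r)) ∧ (Trivial3 m ↔ Corank m 0) ∧
      (Corank m 0 → RankForm m ∧ (∀ (n : ℕ) (x : Sha (curve m)), 3 ^ n • x = 0 → x = 0) ∧
        {q : ℚ × ℚ | q.1 ^ 3 + q.2 ^ 3 = 3 * (m : ℚ)}.Finite)) ∧
    -- (2) the number of the `m` and the law of the coranks
    (∃ c : ℝ, 0 < c ∧ ∃ X₀ : ℕ, ∀ X : ℕ, X₀ ≤ X →
      c * (X / Real.sqrt (Real.log X)) ≤ ((family X).ncard : ℝ)) ∧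
    (∀ r : ℕ, HasShare family (fun m => Corank m r) (p r)) ∧
    (0.56 < p 0 ∧ p 0 < 0.5602 ∧ p 1 = 3 / 4 * p 0 ∧ HasSum p 1) ∧
    (∀ r : ℕ, 1 - 3 / 3 ^ ((r + 1) ^ 2) ≤ ∑ s ∈ Finset.range (r + 1), p s) ∧
    -- (3) the shares
    HasShare family Trivial3 (p 0) ∧
    (∀ ε : ℝ, 0 < ε → ∃ X₀ : ℕ, ∀ X : ℕ, X₀ ≤ X →
      (p 0 - ε) * ((family X).ncard : ℝ) ≤ (({m ∈ family X | RankForm m}.ncard : ℕ) : ℝ)) ∧
    (∃ X₀ : ℕ, ∀ X : ℕ, X₀ ≤ X →
      0.56 * ((family X).ncard : ℝ) ≤ (({m ∈ family X | RankForm m}.ncard : ℕ) : ℝ)) ∧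
    (∀ (r : ℕ) (ε : ℝ), 0 < ε → ∃ X₀ : ℕ, ∀ X : ℕ, X₀ ≤ X →
      (∑ s ∈ Finset.range (r + 1), p s - ε) * ((family X).ncard : ℝ) ≤
        (({m ∈ family X | RankLe m (2 * r)}.ncard : ℕ) : ℝ)) ∧
    (∃ X₀ : ℕ, ∀ X : ℕ, X₀ ≤ X →
      0.98 * ((family X).ncard : ℝ) ≤ (({m ∈ family X | RankLe m 2}.ncard : ℕ) : ℝ)) ∧
    -- (4) the joint law
    (∀ (k : ℕ) (A : Fin k → ℕ), 0 < k → (∀ i, A i = 1 ∨ InClass (A i)) → Function.Injective A →
      (∃ c : ℝ, 0 < c ∧ ∃ X₀ : ℕ, ∀ X : ℕ, X₀ ≤ X →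
        c * (X / Real.sqrt (Real.log X)) ≤ ((primeTo A X).ncard : ℝ)) ∧
      (∀ X, ∀ D ∈ primeTo A X, ∀ i, InClass (A i * D)) ∧
      (∀ r : Fin k → ℕ,
        HasShare (primeTo A) (fun D => ∀ i, Corank (A i * D) (r i)) (∏ i, p (r i))) ∧
      (∀ T : Finset (Fin k), HasShare (primeTo A) (fun D => ∀ i, Trivial3 (A i * D) ↔ i ∈ T)
        (p 0 ^ T.card * (1 - p 0) ^ (k - T.card))) ∧
      (∀ ε : ℝ, 0 < ε → ∃ X₀ : ℕ, ∀ X : ℕ, X₀ ≤ X →
        (p 0 ^ k - ε) * ((primeTo A X).ncard : ℝ) ≤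
          (({D ∈ primeTo A X | ∀ i, RankForm (A i * D)}.ncard : ℕ) : ℝ)) ∧
      ∀ δ : ℝ, 0 < δ → 1 / (4 * δ ^ 3) < k → ∃ X₀ : ℕ, ∀ X : ℕ, X₀ ≤ X →
        (1 - δ) * ((primeTo A X).ncard : ℝ) ≤
          (({D ∈ primeTo A X | (p 0 - δ) * k ≤ ({i | RankForm (A i * D)}.ncard : ℝ)}.ncard : ℕ) :
            ℝ)) := by
  have hp_eq : ∀ r, p r = ur r := fun r => rfl
  have hc := Pool.Agent.Y461.CX.t_C3
  have hfin := fin_family
  have hp0 : (0.56 : ℝ) < p 0 := by
    rw [hp_eq, ur_zero]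
    exact hc.2.2.2
  have hp1 : p 1 = 3 / 4 * p 0 := by rw [hp_eq, hp_eq, ur_one, ur_zero]
  have hlaw := law1.2
  have hT : HasShare family Trivial3 (p 0) := by
    refine (hlaw 0).congr fun X => ?_
    congr 2
    congr 1
    ext m
    exact and_congr_right fun hm => (converse (fam hm)).1.symm
  have key : ∀ ε : ℝ, 0 < ε → ∃ X₀ : ℕ, ∀ X : ℕ, X₀ ≤ X →
      (p 0 - ε) * ((family X).ncard : ℝ) ≤ (({m ∈ family X | RankForm m}.ncard : ℕ) : ℝ) := by
    intro ε hε
    obtain ⟨X₀, h⟩ := share_of (hlaw 0) ε hε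
    refine ⟨X₀, fun X hX => (h X hX).trans ?_⟩
    norm_cast
    refine Set.ncard_le_ncard ?_ ((hfin X).subset fun D hD => hD.1)
    rintro m ⟨h1, h2⟩
    exact ⟨h1, ((converse (fam h1)).2 h2).1⟩
  have key2 : ∀ (r : ℕ) (ε : ℝ), 0 < ε → ∃ X₀ : ℕ, ∀ X : ℕ, X₀ ≤ X →
      (∑ s ∈ Finset.range (r + 1), p s - ε) * ((family X).ncard : ℝ) ≤
        (({m ∈ family X | RankLe m (2 * r)}.ncard : ℕ) : ℝ) := by
    intro r ε hε
    obtain ⟨X₀, h⟩ := share_of (law_small r) ε hε
    refine ⟨X₀, fun X hX => (h X hX).trans ?_⟩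
    norm_cast
    refine Set.ncard_le_ncard ?_ ((hfin X).subset fun D hD => hD.1)
    rintro m ⟨h1, s, h2, h3⟩
    refine ⟨h1, fun a b hb => ?_⟩
    obtain ⟨k1, k2⟩ := (each (fam h1)).2 s h3 a b hb
    exact ⟨k1, k2.trans (Nat.mul_le_mul_left 2 h2)⟩
  refine ⟨fun m hm => ⟨(each hm).1, (each hm).2, (converse hm).1, (converse hm).2⟩, law1.1, hlaw,
    ⟨hp0, ?_, hp1, ?_⟩, fun r => ?_, hT, key, ?_, key2, ?_, fun k A hk hA hinj => ?_⟩
  · rw [hp_eq, ur_zero]
    exact c3_lt
  · exact ur_hasSum hc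
  · have h1 := (ur_part hc (r + 1)).1
    have h2 : (1 : ℝ) - 3 / 3 ^ ((r + 1) ^ 2) = 1 - 3 * (1 / 3 : ℝ) ^ ((r + 1) ^ 2) := by
      rw [one_div_pow, mul_one_div]
    rw [h2]
    exact h1
  · obtain ⟨X₀, k⟩ := key (p 0 - 0.56) (by linarith)
    refine ⟨X₀, fun X hX => ?_⟩
    have h7 := k X hX
    have h8 : p 0 - (p 0 - 0.56) = 0.56 := by ring
    rwa [h8] at h7
  · have h9 : ∑ s ∈ Finset.range (1 + 1), p s = 7 / 4 * p 0 := by
      rw [Finset.sum_range_succ, Finset.sum_range_one, hp1]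
      ring
    obtain ⟨X₀, k⟩ := key2 1 (7 / 4 * p 0 - 0.98) (by linarith)
    refine ⟨X₀, fun X hX => ?_⟩
    have h7 := k X hX
    rw [h9] at h7
    have h8 : 7 / 4 * p 0 - (7 / 4 * p 0 - 0.98) = 0.98 := by ring
    rwa [h8] at h7
  · obtain ⟨h1, hcls, h2⟩ := joint hk hA hinj
    have hfinC : ∀ X, (primeTo A X).Finite := fun X => (hfin X).subset fun D hD => hD.1
    have hTlaw : ∀ T : Finset (Fin k), HasShare (primeTo A)
        (fun D => ∀ i, Trivial3 (A i * D) ↔ i ∈ T) (p 0 ^ T.card * (1 - p 0) ^ (k - T.card)) := by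
      intro T
      -- the coranks as a function
      let f : ℕ → Fin k → ℕ := fun D i => if h : ∃ r, Corank (A i * D) r then h.choose else 0
      have hf : ∀ X, ∀ D ∈ primeTo A X, ∀ i r, (Corank (A i * D) r ↔ f D i = r) := by
        intro X D hD i r
        have h8 : ∃ r, Corank (A i * D) r := (each (hcls X D hD i)).1.exists
        have h9 : f D i = h8.choose := dif_pos h8
        rw [h9]
        constructor
        · intro h
          exact cor_unique h8.choose_spec h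
        · rintro rfl
          exact h8.choose_spec
      have h10 : ∀ r : Fin k → ℕ, Tendsto (Pool.Agent.H508.W.shr (primeTo A) fun D => f D = r)
          atTop (nhds (∏ i, p (r i))) := by
        intro r
        refine (h2 r).congr fun X => ?_
        unfold Pool.Agent.H508.W.shr
        congr 2
        congr 1
        ext D
        refine and_congr_right fun hD => ?_
        show (∀ i, Corank (A i * D) (r i)) ↔ f D = r
        rw [funext_iff]
        exact forall_congr' fun i => hf X D hD i (r i)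
      have h11 := Pool.Agent.H508.W.exact_law hfinC (p := p) (ur_hasSum hc) h10 T
      refine h11.congr fun X => ?_
      unfold Pool.Agent.H508.W.shr
      congr 2
      congr 1
      ext D
      refine and_congr_right fun hD => forall_congr' fun i => ?_
      rw [(converse (hcls X D hD i)).1, hf X D hD i 0]
    refine ⟨h1, hcls, h2, hTlaw, fun ε hε => ?_, fun δ hδ hkδ => ?_⟩
    · have h8 := h2 fun _ => 0
      have hprod : ∏ _i : Fin k, p 0 = p 0 ^ k := by
        rw [Finset.prod_const, Finset.card_univ, Fintype.card_fin]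
      rw [hprod] at h8
      obtain ⟨X₀, h⟩ := share_of h8 ε hε
      refine ⟨X₀, fun X hX => (h X hX).trans ?_⟩
      norm_cast
      refine Set.ncard_le_ncard ?_ ((hfinC X).subset fun D hD => hD.1)
      rintro D ⟨m1, m2⟩
      exact ⟨m1, fun i => ((converse (hcls X D m1 i)).2 (m2 i)).1⟩
    · have hp01 : p 0 ≤ 1 := by
        rw [hp_eq, ur_zero]
        exact c3_lt.le.trans (by norm_num)
      obtain ⟨X₀, h⟩ := Pool.Agent.H508.N.lln hfinC (P := fun D i => Trivial3 (A i * D))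
        (by linarith) hp01 hTlaw hδ hkδ
      refine ⟨X₀, fun X hX => (h X hX).trans ?_⟩
      norm_cast
      refine Set.ncard_le_ncard ?_ ((hfinC X).subset fun D hD => hD.1)
      rintro D ⟨m1, m2⟩
      refine ⟨m1, m2.trans ?_⟩
      norm_cast
      refine Set.ncard_le_ncard ?_ (Set.toFinite _)
      intro i hi
      exact ((converse (hcls X D m1 i)).2 ((converse (hcls X D m1 i)).1.1 hi)).1

end Pool.Agent.Results.MP_696deb_nt.CubeSumRankForm
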