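import Pool.Agent.H468.X15.Main

/-!
# The rank form of the Birch and Swinnerton-Dyer conjecture for the quadratic twists of `X_0(15)`

`E_D : y² = x³ - 12987 D² x - 263466 D³` is the quadratic twist by `D` of the curve
`X_0(15) : y² + x y + y = x³ + x² - 10 x - 10` (another equation of `E_D` is
`Y² = X (X + 16 D) (X + 25 D)`).  The curve has no complex multiplication, all its points of order two
are rational, and it has a rational cyclic isogeny of degree `4`.  `D` runs over all squarefree numbers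
`≡ 1` or `49` modulo `60`, with no condition on the prime factors.

The theorem: an explicit criterion `Good D` in terms of quadratic symbols implies the statement of the
problem for `E_D`, with both sides `0`.  The criterion behaves like a random event of probability
`c = (1 - 1/2) (1 - 1/4) (1 - 1/8) ⋯ = 0.2887...` which is independent for the twists: for all finite
sets `V ⊆ T` of numbers of the family the proportion of the `D` such that, for `M ∈ T`, the twist by
`M D` satisfies the criterion exactly if `M ∈ V`, tends to `c ^ |V| (1 - c) ^ |T \ V|`.  In particular,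
for every finite `T` the conjecture holds for all the twists `E_{M D}`, `M ∈ T`, at the same time, for at
least the proportion `c ^ |T|` of the `D` of the family, and the family has the natural density
`5 / (16 π²)`.

Proof.  The `L`-values: `Pool/Graph/.../H757_X15` (the sum of the modular symbols over the quadratic
character is `4^(k+1) y²`, `k` the number of the primes dividing `D`, and `y` is odd if and only if
`Good D`) and the proportions: `Pool/Graph/.../H757_X15/DN` and `H735X`, by helper757, helper735 and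
their teams.  The rational points: `Pool/Agent/H468/X15`, a complete 2-descent: `Good D` implies that
every rational point is a double up to a point of order two.
-/

set_option autoImplicit false

open Filter Topology

namespace Pool.Agent.Results.MP_696deb_nt.JointTwistsX15

/-- `N_p`: the number of pairs `(x, y) ∈ (ℤ/p)²` with `y² = x³ + a x + b`. -/
noncomputable def pointCount (a b : ℤ) (p : ℕ) : ℕ :=
  Nat.card {q : ZMod p × ZMod p // q.2 ^ 2 = q.1 ^ 3 + (a : ZMod p) * q.1 + (b : ZMod p)}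

/-- `p` is a prime not dividing `2 Δ`, `Δ = -4 a³ - 27 b²`. -/
def GoodPrime (a b : ℤ) (p : ℕ) : Prop :=
  p.Prime ∧ ¬ ((p : ℤ) ∣ 2 * (-4 * a ^ 3 - 27 * b ^ 2))

open Classical in
/-- `F` is the `L`-function of `E : y² = x³ + a x + b` (in the form of the problem): it is entire and
for `Re s > 3/2` it is the incomplete product `∏_{p ∤ 2Δ} (1 - a_p p^{-s} + p^{1-2s})⁻¹`,
`a_p = p - N_p`. -/
def IsL (a b : ℤ) (F : ℂ → ℂ) : Prop :=
  Differentiable ℂ F ∧ ∀ s : ℂ, (3 : ℝ) / 2 < s.re →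
    HasProd (fun p : ℕ => if GoodPrime a b p then
      (1 - ((p : ℂ) - (pointCount a b p : ℂ)) * (p : ℂ) ^ (-s) + (p : ℂ) ^ (1 - 2 * s))⁻¹ else 1)
      (F s)

/-- the group `E(ℚ)` for `E : y² = x³ + a x + b` -/
abbrev Points (a b : ℤ) : Type :=
  (({ a₁ := 0, a₂ := 0, a₃ := 0, a₄ := (a : ℚ), a₆ := (b : ℚ) } : WeierstrassCurve ℚ).toAffine).Point

/-- The statement of the problem for `E : y² = x³ + a x + b`, with the additional information that
both sides are `0`: the `L`-function of `E` is entire, its order of vanishing at `s = 1` is the rank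
of `E(ℚ)`, the rank is `0`, and `E(ℚ)` is finite. -/
def BSDRankZero (a b : ℤ) : Prop :=
  4 * a ^ 3 + 27 * b ^ 2 ≠ 0 ∧ Finite (Points a b) ∧ ∃ F : ℂ → ℂ, IsL a b F ∧
    analyticOrderAt F 1 = ((Module.finrank ℤ (Points a b) : ℕ) : ℕ∞) ∧
    Module.finrank ℤ (Points a b) = 0

/-- The rank form of the conjecture, with rank `0`, for the quadratic twist by `D` of `X_0(15)`,
`E_D : y² = x³ - 12987 D² x - 263466 D³`. -/
def TwistBSD (D : ℕ) : Prop := BSDRankZero (-12987 * (D : ℤ) ^ 2) (-263466 * (D : ℤ) ^ 3)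

/-- the family: the squarefree numbers `≡ 1` or `49` modulo `60` -/
def Family (D : ℕ) : Prop := Squarefree D ∧ (D % 60 = 1 ∨ D % 60 = 49)

open Classical in
/-- the number of the `D ≤ X` of the family with the property `P` -/
noncomputable def num (P : ℕ → Prop) (X : ℕ) : ℕ :=
  ((Finset.Icc 1 X).filter fun D => Family D ∧ P D).card

/-- the squarefree part of `M D`, for squarefree `M` and `D` -/
def tw (M D : ℕ) : ℕ := M * D / Nat.gcd M D ^ 2

/-- The criterion: the only positive divisor `d` of `D` such that `(d/p) = 1` for the primes `p` dividing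
`D` and not dividing `d`, `(-(D/d)/p) = 1` for the primes `p` dividing `d`, and `(d/5) = 1`, is
`d = 1`. -/
def Good (D : ℕ) : Prop := ∀ d : ℕ, d ∣ D →
  (∀ p : ℕ, p.Prime → p ∣ D → ¬ p ∣ d → jacobiSym d p = 1) →
  (∀ p : ℕ, p.Prime → p ∣ d → jacobiSym (-((D / d : ℕ) : ℤ)) p = 1) →
  jacobiSym d 5 = 1 → d = 1

/-- the constant `(1 - 1/2) (1 - 1/4) (1 - 1/8) ⋯ = 0.2887...` -/
noncomputable def c : ℝ := ∏' i : ℕ, (1 - (1 / 2 : ℝ) ^ (i + 1))

section proof

open Pool.Agent.H757_X15.DD (Fm Crit c1 t_LA1 t_DEN2)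

lemma bsd_of {D : ℕ} (hD : Family D) (h1 : D ≠ 1) (hG : Good D) : TwistBSD D := by
  have hfin := Pool.Agent.H468.X15.finite_set hD.1 hD.2 hG h1
  obtain ⟨F, hF, hp, h0, hr⟩ := Pool.Agent.H468.X15.rankBSD_of hD.1 hD.2 h1 hG
  have hD0 : (D : ℤ) ≠ 0 := by exact_mod_cast hD.1.ne_zero
  refine ⟨?_, Pool.Agent.Y687.finite_pt_of_set hfin, F, ⟨hF, fun s hs => ?_⟩, ?_, ?_⟩
  · have e : 4 * (-12987 * (D : ℤ) ^ 2) ^ 3 + 27 * (-263466 * (D : ℤ) ^ 3) ^ 2 =
        (4 * (-12987) ^ 3 + 27 * (-263466) ^ 2) * (D : ℤ) ^ 6 := by ring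
    rw [e]
    exact mul_ne_zero (by norm_num) (pow_ne_zero 6 hD0)
  · refine (congrArg (fun g => HasProd g (F s)) (funext fun p => ?_)).mp (hp s hs)
    by_cases h : GoodPrime (-12987 * (D : ℤ) ^ 2) (-263466 * (D : ℤ) ^ 3) p
    · exact (if_pos h).trans (if_pos h).symm
    · exact (if_neg h).trans (if_neg h).symm
  · have hr' : Module.finrank ℤ (Points (-12987 * (D : ℤ) ^ 2) (-263466 * (D : ℤ) ^ 3)) = 0 := hr
    rw [hr', h0]
    rfl
  · exact hr

lemma c_bounds : 0.2887 < c ∧ c < 0.2888 := t_LA1.2.2.2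

lemma card_iff {s : Finset ℕ} {p q : ℕ → Prop} (ip : DecidablePred p) (iq : DecidablePred q)
    (h : ∀ a, p a ↔ q a) : (@Finset.filter ℕ p ip s).card = (@Finset.filter ℕ q iq s).card := by
  have hpq : p = q := funext fun a => propext (h a)
  subst hpq
  congr

lemma law (T V : Finset ℕ) (hT : ∀ M ∈ T, Family M) (hV : V ⊆ T) :
    Tendsto (fun X : ℕ => (num (fun D => ∀ M ∈ T, (Good (tw M D) ↔ M ∈ V)) X : ℝ) /
      (num (fun _ => True) X : ℝ)) atTop (𝓝 (c ^ V.card * (1 - c) ^ (T.card - V.card))) := by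
  have h := Pool.Agent.H735X.lawD Pool.Agent.H735X.t_JDQ T V hT hV
  rw [Finset.card_sdiff_of_subset hV] at h
  refine h.congr fun X => ?_
  congr 2
  · exact card_iff _ _ fun D => Iff.rfl
  · exact card_iff _ _ fun D => ⟨fun h => ⟨h, trivial⟩, fun h => h.1⟩

lemma dens : Tendsto (fun X : ℕ => (num (fun _ => True) X : ℝ) / X) atTop
    (𝓝 (5 / (16 * Real.pi ^ 2))) := by
  have h := t_DEN2
  refine h.congr fun X => ?_
  congr 2
  exact card_iff _ _ fun D => ⟨fun h => ⟨h, trivial⟩, fun h => h.1⟩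

open Classical in
/-- the elements counted by `num` -/
noncomputable def fam (P : ℕ → Prop) (X : ℕ) : Finset ℕ :=
  (Finset.Icc 1 X).filter fun D => Family D ∧ P D

lemma num_eq (P : ℕ → Prop) (X : ℕ) : num P X = (fam P X).card := rfl

lemma mem_fam {P : ℕ → Prop} {X D : ℕ} : D ∈ fam P X ↔ D ∈ Finset.Icc 1 X ∧ Family D ∧ P D := by
  simp only [fam, Finset.mem_filter]

lemma num_mono {P Q : ℕ → Prop} (X : ℕ) (h : ∀ D, Family D → P D → Q D) : num P X ≤ num Q X := by
  rw [num_eq, num_eq]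
  refine Finset.card_le_card fun D hD => ?_
  rw [mem_fam] at hD ⊢
  exact ⟨hD.1, hD.2.1, h D hD.2.1 hD.2.2⟩

lemma num_or {P Q : ℕ → Prop} (X : ℕ) : num (fun D => P D ∨ Q D) X ≤ num P X + num Q X := by
  rw [num_eq, num_eq, num_eq]
  refine le_trans (Finset.card_le_card ?_) (Finset.card_union_le _ _)
  intro D hD
  rw [mem_fam] at hD
  rw [Finset.mem_union, mem_fam, mem_fam]
  rcases hD.2.2 with h | h
  · exact Or.inl ⟨hD.1, hD.2.1, h⟩
  · exact Or.inr ⟨hD.1, hD.2.1, h⟩

lemma num_mem (T : Finset ℕ) (X : ℕ) : num (fun D => D ∈ T) X ≤ T.card := by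
  rw [num_eq]
  refine Finset.card_le_card fun D hD => ?_
  rw [mem_fam] at hD
  exact hD.2.2

lemma tw_spec {M D : ℕ} (hM : Family M) (hD : Family D) :
    Family (tw M D) ∧ M * D = tw M D * Nat.gcd M D ^ 2 := by
  refine ⟨⟨Pool.Agent.H735X.tw_sqf hM.1 hD.1, Pool.Agent.H735X.tw_fm hM.1 hM.2 hD.1 hD.2⟩, ?_⟩
  have h1 : Nat.gcd M D ^ 2 ∣ M * D := by
    rw [sq]
    exact mul_dvd_mul (Nat.gcd_dvd_left _ _) (Nat.gcd_dvd_right _ _)
  exact (Nat.div_mul_cancel h1).symm

lemma tw_one {M D : ℕ} (hM : Family M) (hD : Family D) (h : tw M D = 1) : D = M := by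
  have h1 := (tw_spec hM hD).2
  rw [h, one_mul] at h1
  have hM0 : 0 < M := Nat.pos_of_ne_zero hM.1.ne_zero
  have hD0 : 0 < D := Nat.pos_of_ne_zero hD.1.ne_zero
  have k1 : Nat.gcd M D ≤ M := Nat.le_of_dvd hM0 (Nat.gcd_dvd_left _ _)
  have k2 : Nat.gcd M D ≤ D := Nat.le_of_dvd hD0 (Nat.gcd_dvd_right _ _)
  have k3 : 0 < Nat.gcd M D := Nat.gcd_pos_of_pos_left _ hM0
  have e1 : Nat.gcd M D = M := by
    by_contra hne
    have hlt : Nat.gcd M D < M := lt_of_le_of_ne k1 hne
    have : Nat.gcd M D * Nat.gcd M D < M * D := Nat.mul_lt_mul_of_lt_of_le hlt k2 hD0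
    rw [h1, sq] at this
    exact lt_irrefl _ this
  have e2 : Nat.gcd M D = D := by
    by_contra hne
    have hlt : Nat.gcd M D < D := lt_of_le_of_ne k2 hne
    have : Nat.gcd M D * Nat.gcd M D < M * D := Nat.mul_lt_mul_of_le_of_lt k1 hlt hM0
    rw [h1, sq] at this
    exact lt_irrefl _ this
  rw [← e2, e1]

lemma bsd_law (T : Finset ℕ) (hT : ∀ M ∈ T, Family M) (δ : ℝ) (hδ : δ < c ^ T.card) :
    ∀ᶠ X : ℕ in atTop, δ * (num (fun _ => True) X : ℝ) ≤
      (num (fun D => ∀ M ∈ T, TwistBSD (tw M D)) X : ℝ) := by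
  have h1 := law T T hT (Finset.Subset.refl T)
  rw [Nat.sub_self, pow_zero, mul_one] at h1
  have h2 := dens
  have hpi : 0 < 5 / (16 * Real.pi ^ 2) := by positivity
  set κ : ℝ := (c ^ T.card - δ) / 2 with hκ
  have hκ0 : 0 < κ := by rw [hκ]; linarith
  have h3 : ∀ᶠ X : ℕ in atTop, c ^ T.card - κ <
      (num (fun D => ∀ M ∈ T, (Good (tw M D) ↔ M ∈ T)) X : ℝ) / (num (fun _ => True) X : ℝ) :=
    h1.eventually_const_lt (by linarith)
  have h4 : ∀ᶠ X : ℕ in atTop, 5 / (16 * Real.pi ^ 2) / 2 < (num (fun _ => True) X : ℝ) / X :=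
    h2.eventually_const_lt (by linarith)
  have h5 : ∀ᶠ X : ℕ in atTop, (T.card : ℝ) ≤ κ * (5 / (16 * Real.pi ^ 2) / 2) * X := by
    have h6 : Tendsto (fun X : ℕ => κ * (5 / (16 * Real.pi ^ 2) / 2) * (X : ℝ)) atTop atTop :=
      Tendsto.const_mul_atTop (by positivity) tendsto_natCast_atTop_atTop
    exact h6.eventually_ge_atTop _
  filter_upwards [h3, h4, h5, eventually_gt_atTop 0] with X k3 k4 k5 hX
  have hXr : (0 : ℝ) < X := by exact_mod_cast hX
  have hN : 5 / (16 * Real.pi ^ 2) / 2 * X < (num (fun _ => True) X : ℝ) := by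
    rwa [lt_div_iff₀ hXr] at k4
  have hN0 : 0 < (num (fun _ => True) X : ℝ) := lt_trans (by positivity) hN
  rw [lt_div_iff₀ hN0] at k3
  have k6 : num (fun D => ∀ M ∈ T, (Good (tw M D) ↔ M ∈ T)) X ≤
      num (fun D => ∀ M ∈ T, TwistBSD (tw M D)) X + T.card := by
    refine le_trans (num_mono (Q := fun D => (∀ M ∈ T, TwistBSD (tw M D)) ∨ D ∈ T) X
      fun D hD h => ?_) (le_trans (num_or X) (Nat.add_le_add_left (num_mem T X) _))
    by_cases hDT : D ∈ T
    · exact Or.inr hDT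
    · refine Or.inl fun M hM => bsd_of (tw_spec (hT M hM) hD).1 (fun h' => ?_) ((h M hM).2 hM)
      rw [tw_one (hT M hM) hD h'] at hDT
      exact hDT hM
  have k7 : (num (fun D => ∀ M ∈ T, (Good (tw M D) ↔ M ∈ T)) X : ℝ) ≤
      (num (fun D => ∀ M ∈ T, TwistBSD (tw M D)) X : ℝ) + T.card := by exact_mod_cast k6
  have k8 : (T.card : ℝ) ≤ κ * (num (fun _ => True) X : ℝ) := by
    refine le_trans k5 ?_
    rw [mul_assoc]
    exact mul_le_mul_of_nonneg_left hN.le hκ0.le
  have k9 : c ^ T.card = δ + 2 * κ := by rw [hκ]; ring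
  rw [k9] at k3
  nlinarith

end proof

theorem result :
    (∀ M D : ℕ, Family M → Family D → Family (tw M D) ∧ M * D = tw M D * Nat.gcd M D ^ 2) ∧
    (∀ D : ℕ, Family D → D ≠ 1 → Good D → TwistBSD D) ∧
    (∀ T V : Finset ℕ, (∀ M ∈ T, Family M) → V ⊆ T →
      Tendsto (fun X : ℕ => (num (fun D => ∀ M ∈ T, (Good (tw M D) ↔ M ∈ V)) X : ℝ) /
        (num (fun _ => True) X : ℝ)) atTop (𝓝 (c ^ V.card * (1 - c) ^ (T.card - V.card)))) ∧
    (∀ T : Finset ℕ, (∀ M ∈ T, Family M) → ∀ δ : ℝ, δ < c ^ T.card → ∀ᶠ X : ℕ in atTop,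
      δ * (num (fun _ => True) X : ℝ) ≤ (num (fun D => ∀ M ∈ T, TwistBSD (tw M D)) X : ℝ)) ∧
    Tendsto (fun X : ℕ => (num (fun _ => True) X : ℝ) / X) atTop (𝓝 (5 / (16 * Real.pi ^ 2))) ∧
    0.2887 < c ∧ c < 0.2888 :=
  ⟨fun _ _ hM hD => tw_spec hM hD, fun _ hD h1 hG => bsd_of hD h1 hG, law, bsd_law, dens, c_bounds⟩

end Pool.Agent.Results.MP_696deb_nt.JointTwistsX15
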