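import Pool.Agent.H743.JL.AllZ
import Pool.Graph.R_pool_sql_team_seeded_63374d34.N916.GB.Num

/-!
# The rank form of the Birch and Swinnerton-Dyer conjecture for simultaneous quadratic twists: the joint
# law for the curves of conductor 17 and `X_0(15)`, `X_0(21)`, `X_0(24)`

The curves `C_j : y² = x³ + A j x + B j`: `j = 0, 1, 2, 3` are the four curves of conductor `17` (isogenous
to `X_0(17)`; `C_3` has all its points of order two rational), `C_4 = X_0(15)`, `C_5 = X_0(21)`,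
`C_6 = X_0(24)`.  They do not have complex multiplication, and the conductors `15`, `17`, `21`, `24`
belong to four different isogeny classes.  `C_j^m` is the quadratic twist, `m` a squarefree integer; `Fam j m`:
for `j ≤ 3` EVERY `m ≠ 1`, for `j > 3` explicit families of negative `m`.

(1) **The 2-converse.**  Let `m` be in `Fam j`, and let `C = C_3` for `j ≤ 3`, `C = C_j` for `j > 3`.  If `C^m(ℚ)` is
finite and `Ш(C^m/ℚ)[2] = 0` (`Trivial2`), then the statement of the problem holds for all the integral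
equations of `C_j^m`, with both sides `0`.  The condition is equivalent to the criterion `Crit j m`: for `j ≤ 3`
an explicit matrix over `𝔽₂` is nonsingular; for `j > 3` there is no ideal class of order four in `ℚ(√m)`.
(2) **The joint law.**  `All17 m`: the condition and the conclusion of (1) hold for the four curves of
conductor `17`; `All4 m`: there is no ideal class of order four in `ℚ(√m)`, and the condition and the
conclusion of (1) hold for those `j = 4, 5, 6` for which `m` belongs to `Fam j`.  For all finite sets `T`, `T'` of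
squarefree integers and in every class of the `m` given by conditions at finitely many places, the
events `All17 (t m)`, `t ∈ T` (for those `t` for which the root number is `1`) and `All4 (t m)`, `t ∈ T'`
(`t m < 0`) are independent, with the probabilities `c = (1 - 1/2) (1 - 1/8) (1 - 1/32) ⋯ = 0.4194...` and
`η = (1 - 1/2) (1 - 1/4) (1 - 1/8) ⋯ = 0.2887...`.  Here `t m` is replaced by its squarefree part `tw t m`.  So for
any number of multipliers and for curves which are not isogenous, the statement of the problem holds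
simultaneously for all these curves for an exact positive proportion of the `m`, ordered by `|m|`, and
also each other pattern occurs with the expected proportion.
(3) In particular `All17 m` has the natural density EXACTLY `c / 2 = 0.2097...` in ALL squarefree `m`.

Proof.  The L-values of the twists of `X_0(17)` and their parity and the density of the criterion for one
twist: library (run 63374d34, unpublished modules); the 2-converse for conductor `17`:
`Pool/Agent/H743/X17`.  `X_0(21)`: `Pool/Agent/H114/X21` (helper114), `X_0(15)`: `Pool/Agent/H464/XB`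
(helper464), `X_0(24)`: `Pool/Agent/H345/X24` (helper345).  The joint law is new (`Pool/Agent/H743/JL`):
the matrices of the criteria for the integers `t m`, `t ∈ T ∪ T'`, are random alternating and split
forms with the same random part and different (linearly disjoint) fixed parts; the averages of the
indicators of nondegeneracy over the prime factors of `m` are computed by means of rank one changes and
of the invariant relation spaces.
-/

set_option autoImplicit false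

open Filter Topology NumberField

namespace Pool.Agent.Results.MP_696deb_nt.SimultaneousTwists

open Pool.Agent.TH841.SH.D (Sha)

/-! ### the problem's definitions -/

/-- `N_p`: the number of pairs `(x, y) ∈ (ℤ/p)²` with `y² = x³ + a x + b`. -/
noncomputable def pointCount (a b : ℤ) (p : ℕ) : ℕ :=
  Nat.card {q : ZMod p × ZMod p // q.2 ^ 2 = q.1 ^ 3 + (a : ZMod p) * q.1 + (b : ZMod p)}

/-- `p` is a prime not dividing `2 Δ`, `Δ = -4 a³ - 27 b²`. -/
def GoodPrime (a b : ℤ) (p : ℕ) : Prop :=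
  p.Prime ∧ ¬ ((p : ℤ) ∣ 2 * (-4 * a ^ 3 - 27 * b ^ 2))

open Classical in
/-- `F` is the `L`-function of `E : y² = x³ + a x + b` (in the form of the problem): it is entire and
for `Re s > 3/2` it is the incomplete product `∏_{p ∤ 2Δ} (1 - a_p p^{-s} + p^{1-2s})⁻¹`,
`a_p = p - N_p`. -/
def IsL (a b : ℤ) (F : ℂ → ℂ) : Prop :=
  Differentiable ℂ F ∧ ∀ s : ℂ, (3 : ℝ) / 2 < s.re →
    HasProd (fun p : ℕ => if GoodPrime a b p then
      (1 - ((p : ℂ) - (pointCount a b p : ℂ)) * (p : ℂ) ^ (-s) + (p : ℂ) ^ (1 - 2 * s))⁻¹ else 1)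
      (F s)

/-- `y² = x³ + a x + b` -/
abbrev E (a b : ℤ) : WeierstrassCurve ℚ := ⟨0, 0, 0, (a : ℚ), (b : ℚ)⟩

/-- the group of the rational points -/
abbrev Points (a b : ℤ) : Type := (E a b).toAffine.Point

/-- The statement of the problem for `y² = x³ + a x + b`, with the additional information that
both sides are `0`: the `L`-function is entire, its order of vanishing at `s = 1` is the rank
of `E(ℚ)`, the rank is `0`, and `E(ℚ)` is finite. -/
def BSDRankZero (a b : ℤ) : Prop :=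
  4 * a ^ 3 + 27 * b ^ 2 ≠ 0 ∧ Finite (Points a b) ∧ ∃ F : ℂ → ℂ, IsL a b F ∧
    analyticOrderAt F 1 = ((Module.finrank ℤ (Points a b) : ℕ) : ℕ∞) ∧
    Module.finrank ℤ (Points a b) = 0

/-! ### the curves -/

/-- the curves are `C_j : y² = x³ + A j x + B j`: `j = 0, 1, 2, 3`: conductor `17`; `X_0(15)`, `X_0(21)`,
`X_0(24)` for `j = 4, 5, 6` -/
def A (j : Fin 7) : ℤ := match j with
  | 0 => -11 | 1 => -11 | 2 => -1451 | 3 => -91 | 4 => -12987 | 5 => -5211 | 6 => -351

/-- see `A` -/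
def B (j : Fin 7) : ℤ := match j with
  | 0 => -890 | 1 => 6 | 2 => -21274 | 3 => -330 | 4 => -263466 | 5 => -31050 | 6 => 1890

/-- `y² = x³ + a x + b` is isomorphic over `ℚ` to the quadratic twist `C_j^m` of `C_j` by `m`,
`y² = x³ + A j m² x + B j m³` -/
def Equ (j : Fin 7) (m a b : ℤ) : Prop :=
  ∃ g : ℚ, g ≠ 0 ∧ (a : ℚ) = A j * (g ^ 2 * m) ^ 2 ∧ (b : ℚ) = B j * (g ^ 2 * m) ^ 3

/-- the statement of the problem holds for all the integral equations of `C_j^m`, with both sides `0` -/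
def BSD (j : Fin 7) (m : ℤ) : Prop := ∀ a b : ℤ, Equ j m a b → BSDRankZero a b

/-- `C_j^m(ℚ)` is finite and `Ш(C_j^m/ℚ)` has no element of order two -/
def Trivial2 (j : Fin 7) (m : ℤ) : Prop := Finite (Points (A j * m ^ 2) (B j * m ^ 3)) ∧
  ∀ x : Sha (E (A j * m ^ 2) (B j * m ^ 3)), x + x = 0 → x = 0

/-- the families; `m` is squarefree.  `j ≤ 3`: every `m ≠ 1` -/
def Fam (j : Fin 7) (m : ℤ) : Prop := match j with
  | 4 => m < 0 ∧ (m % 60 = 13 ∨ m % 60 = 37)
  | 5 => m < 0 ∧ m % 3 ≠ 1 ∧ (m % 7 = 0 ∨ m % 7 = 1 ∨ m % 7 = 2 ∨ m % 7 = 4)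
  | 6 => m < 0 ∧ m % 24 = 13
  | _ => m ≠ 1

/-- the root number of the curves `C_0^m, …, C_3^m` is `1` -/
def Root (m : ℤ) : Prop := (0 < m ∧ jacobiSym m 17 = 1) ∨ (m < 0 ∧ jacobiSym m 17 ≠ 1)

/-! ### the criteria -/

/-- the absolute value of the discriminant of `ℚ(√m)`, `m` squarefree -/
def disc (m : ℤ) : ℕ := if m % 4 = 1 then m.natAbs else 4 * m.natAbs

/-- the primes ramified in `ℚ(√m)` -/
def R (m : ℤ) : Finset ℕ := (disc m).primeFactors

/-- the prime discriminant `q*` of `ℚ(√m)`, `q ∈ R m` -/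
def star (m : ℤ) (q : ℕ) : ℤ :=
  if q = 2 then (if m % 4 = 3 then -4 else if m % 8 = 2 then 8 else -8)
  else if q % 4 = 1 then q else -q

/-- the Kronecker symbol `(q* / p)`, `p ≠ q`, written additively -/
def sym (m : ℤ) (q p : ℕ) : ZMod 2 :=
  if p = 2 then (if star m q % 8 = 1 ∨ star m q % 8 = 7 then 0 else 1)
  else (if jacobiSym (star m q) p = 1 then 0 else 1)

/-- the Rédei matrix: `(q* / p)` outside of the diagonal, and the sums of the rows are zero -/
def L (m : ℤ) (p q : ℕ) : ZMod 2 := if p = q then ∑ r ∈ (R m).erase p, sym m r p else sym m q p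

/-- the sign of `q*`, written additively -/
def sg (m : ℤ) (q : ℕ) : ZMod 2 := if star m q < 0 then 1 else 0

/-- the Kronecker symbol `(17 / p)`, written additively -/
def nu (p : ℕ) : ZMod 2 := if p = 2 then 0 else if jacobiSym 17 p = 1 then 0 else 1

/-- **The criterion for the conductor 17**: the homogeneous system over `𝔽₂` with the symmetric matrix
`[[diag (17/p), L], [Lᵀ, diag (sign of q*)]]`, without the row and the column of the first block which
belong to `17`, has only the trivial solution. -/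
def Good (m : ℤ) : Prop := ∀ x y : ℕ → ZMod 2, x 17 = 0 →
  (∀ p ∈ (R m).erase 17, nu p * x p + ∑ q ∈ R m, L m p q * y q = 0) →
  (∀ q ∈ R m, ∑ p ∈ R m, L m p q * x p + sg m q * y q = 0) →
  ∀ p ∈ R m, x p = 0 ∧ y p = 0

/-- **The criterion for `X_0(15)`, `X_0(21)`, `X_0(24)`**: there is no ideal class of order four in
`ℚ(√m)` -/
def NoFour (m : ℤ) : Prop := ∀ (K : Type) [Field K] [NumberField K], Module.finrank ℚ K = 2 →
  (∃ s : K, s ^ 2 = (m : K)) → ∀ c : ClassGroup (𝓞 K), c ^ 4 = 1 → c ^ 2 = 1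

/-- the criterion for `C_j^m` -/
def Crit (j : Fin 7) (m : ℤ) : Prop := if j ≤ 3 then Good m else NoFour m

/-- the curve of the condition in the 2-converse for `C_j`: `C_3` for the conductor `17`, and `C_j` itself for
`j > 3` -/
def opt (j : Fin 7) : Fin 7 := if j ≤ 3 then 3 else j

/-- the condition and the conclusion of the 2-converse hold for the curves of conductor `17` -/
def All17 (m : ℤ) : Prop := Trivial2 3 m ∧ ∀ j : Fin 7, j ≤ 3 → BSD j m

/-- there is no ideal class of order four in `ℚ(√m)`, and the condition and the conclusion of the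
2-converse hold for those of `X_0(15)`, `X_0(21)`, `X_0(24)` for which `m` belongs to the family -/
def All4 (m : ℤ) : Prop := NoFour m ∧ ∀ j : Fin 7, 4 ≤ j → Fam j m → Trivial2 j m ∧ BSD j m

/-! ### the densities -/

/-- the squarefree part of the product of the squarefree integers `t` and `m` -/
def tw (t m : ℤ) : ℤ := t * m / (Int.gcd t m : ℤ) ^ 2

open Classical in
/-- the number of the squarefree integers `m`, `|m| ≤ X`, with the property `P` -/
noncomputable def num (P : ℤ → Prop) (X : ℕ) : ℕ :=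
  ((Finset.Icc (-(X : ℤ)) X).filter fun m => Squarefree m ∧ P m).card

/-- `m` and `d₀` have the same class in `ℚ_p^×` modulo squares for `p ∈ S`, and the same sign if `inf` -/
def SameClass (inf : Prop) (S : Finset ℕ) (d₀ m : ℤ) : Prop :=
  (inf → 0 < m * d₀) ∧ ∀ (p : ℕ) [Fact p.Prime], p ∈ S → IsSquare ((m * d₀ : ℤ) : ℚ_[p])

/-- the class of `d₀`: the same class at the given places, the same root numbers of the twists by
`t m`, `t ∈ T`, and the same signs of `t m`, `t ∈ T'` -/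
def Cls (T T' : Finset ℤ) (inf : Prop) (S : Finset ℕ) (d₀ m : ℤ) : Prop :=
  ((∀ t ∈ T, (Root (tw t m) ↔ Root (tw t d₀))) ∧ ∀ t ∈ T', (tw t m < 0 ↔ tw t d₀ < 0)) ∧
    SameClass inf S d₀ m

/-- the constant `(1 - 1/2) (1 - 1/8) (1 - 1/32) ⋯ = 0.4194...` -/
noncomputable def c : ℝ := ∏' i : ℕ, (1 - (1 / 2 : ℝ) ^ (2 * i + 1))

/-- the constant `(1 - 1/2) (1 - 1/4) (1 - 1/8) ⋯ = 0.2887...` -/
noncomputable def η : ℝ := ∏' i : ℕ, (1 - (1 / 2 : ℝ) ^ (i + 1))

section proof

open Pool.Agent.H743.X17 (parts iparts)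
open Pool.Agent.H743.JL (TR)
open Pool.Agent.H743.X17.RK (IsI cA cB)

lemma disc_ne_of {A B a b : ℤ} {k : ℚ} (h : 4 * A ^ 3 + 27 * B ^ 2 ≠ 0) (hk : k ≠ 0)
    (ha : (a : ℚ) = A * k ^ 2) (hb : (b : ℚ) = B * k ^ 3) : 4 * a ^ 3 + 27 * b ^ 2 ≠ 0 := by
  intro h0
  have h1 : (4 * (a : ℚ) ^ 3 + 27 * (b : ℚ) ^ 2) = 0 := by exact_mod_cast h0
  rw [ha, hb] at h1
  have h2 : ((4 * A ^ 3 + 27 * B ^ 2 : ℤ) : ℚ) * k ^ 6 = 0 := by
    push_cast
    linear_combination h1
  rcases mul_eq_zero.1 h2 with h3 | h3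
  · exact h (by exact_mod_cast h3)
  · exact hk (pow_eq_zero_iff (by norm_num) |>.1 h3)

lemma AB_ne (j : Fin 7) : 4 * A j ^ 3 + 27 * B j ^ 2 ≠ 0 := by
  fin_cases j <;> norm_num [A, B]

lemma disc_ne {j : Fin 7} {m a b : ℤ} (hm : Squarefree m) (h : Equ j m a b) :
    4 * a ^ 3 + 27 * b ^ 2 ≠ 0 := by
  obtain ⟨g, hg, ha, hb⟩ := h
  have hk : g ^ 2 * (m : ℚ) ≠ 0 :=
    mul_ne_zero (pow_ne_zero 2 hg) (by exact_mod_cast hm.ne_zero)
  exact disc_ne_of (AB_ne j) hk ha hb

lemma isL_of {a b : ℤ} {F : ℂ → ℂ} (h : IsI a b F) : IsL a b F := by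
  classical
  refine ⟨h.1, fun s hs => ?_⟩
  refine (congrArg (fun g => HasProd g (F s)) (funext fun p => ?_)).mp (h.2 s hs)
  by_cases h : GoodPrime a b p
  · exact (if_pos h).trans (if_pos h).symm
  · exact (if_neg h).trans (if_neg h).symm

/-- the statement of the problem from a nonzero value -/
lemma bsd_mk {a b : ℤ} (hD : 4 * a ^ 3 + 27 * b ^ 2 ≠ 0) (hfin : Finite (Points a b)) {F : ℂ → ℂ}
    (hF : IsI a b F) (h0 : F 1 ≠ 0) : BSDRankZero a b := by
  have hr : Module.finrank ℤ (Points a b) = 0 := by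
    have := hfin
    rw [Module.finrank, Module.rank_eq_zero_iff_isTorsion.2]
    · simp
    · intro x
      refine ⟨⟨(Nat.card (Points a b) : ℤ), ?_⟩, ?_⟩
      · exact mem_nonZeroDivisors_of_ne_zero (by exact_mod_cast Nat.card_pos.ne')
      · show (Nat.card (Points a b) : ℤ) • x = 0
        rw [natCast_zsmul]
        exact card_nsmul_eq_zero'
  refine ⟨hD, hfin, F, isL_of hF, ?_, hr⟩
  rw [hr]
  exact (hF.1.analyticAt 1).analyticOrderAt_eq_zero.2 h0

/-! #### conductor 17 -/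

/-- the index -/
def ix (i : Fin 4) : Fin 7 := ⟨i.1, by omega⟩

lemma A_ix (i : Fin 4) : A (ix i) = cA i := by fin_cases i <;> rfl

lemma B_ix (i : Fin 4) : B (ix i) = cB i := by fin_cases i <;> rfl

lemma le3 {j : Fin 7} (h : j ≤ 3) : ∃ i : Fin 4, j = ix i := by
  have h' : j.1 ≤ 3 := h
  exact ⟨⟨j.1, by omega⟩, Fin.ext rfl⟩

lemma equ17 {i : Fin 4} {m a b : ℤ} (hm : Squarefree m) (h : Equ (ix i) m a b) :
    ∃ g : ℕ, g ≠ 0 ∧ a = cA i * ((g : ℤ) ^ 2 * m) ^ 2 ∧ b = cB i * ((g : ℤ) ^ 2 * m) ^ 3 := by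
  obtain ⟨g, hg, ha, hb⟩ := h
  rw [A_ix] at ha
  rw [B_ix] at hb
  exact Pool.Agent.H743.JL.sl i m a b g hm hg ha hb

lemma of_triv {W : WeierstrassCurve ℚ} (h : Finite W.toAffine.Point ∧ ∀ x : Sha W, x + x = 0 → x = 0) :
    Pool.Agent.H743.X17.FinSha W := by
  refine ⟨h.1, fun n => ?_⟩
  induction n with
  | zero => intro x hx; simpa using hx
  | succ n ih =>
    intro x hx
    apply h.2
    have h3 : 2 ^ n • (x + x) = 0 := by
      rw [← two_nsmul, smul_smul, ← pow_succ]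
      exact hx
    exact ih _ h3

lemma triv_of {W : WeierstrassCurve ℚ} : Pool.Agent.H743.X17.FinSha W →
    Finite W.toAffine.Point ∧ ∀ x : Sha W, x + x = 0 → x = 0 := by
  rintro ⟨h1, h2⟩
  exact ⟨h1, fun x hx => h2 1 x (by rw [pow_one, two_nsmul]; exact hx)⟩

lemma trivial3_iff {m : ℤ} (hm : Squarefree m) : Trivial2 3 m ↔ Good m := by
  have h1 : Pool.Agent.H743.X17.FinSha (Pool.Agent.H743.X17.RK.SS 3 (((1 : ℕ) : ℤ) ^ 2 * m)) ↔
      Good m := Pool.Agent.H743.X17.RK.finSha3 parts hm one_ne_zero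
  rw [← h1]
  have e : Pool.Agent.H743.X17.RK.SS 3 (((1 : ℕ) : ℤ) ^ 2 * m) = E (A 3 * m ^ 2) (B 3 * m ^ 3) := by
    unfold Pool.Agent.H743.X17.RK.SS E
    have e1 : ((1 : ℕ) : ℤ) ^ 2 * m = m := by norm_num
    rw [e1]
    rfl
  rw [e]
  exact ⟨of_triv, triv_of⟩

lemma bsd17 {m : ℤ} (hm : Squarefree m) (h1 : m ≠ 1) (hG : Good m) {j : Fin 7} (hj : j ≤ 3) :
    BSD j m := by
  obtain ⟨i, rfl⟩ := le3 hj
  intro a b h
  have hD := disc_ne hm h
  obtain ⟨g, hg, rfl, rfl⟩ := equ17 hm h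
  obtain ⟨hO, f, y, hf, hy, h0, hv⟩ := Pool.Agent.H743.X17.main parts hm h1
  obtain ⟨F, hF, hF1⟩ := Pool.Agent.H743.X17.RK.incl iparts i hm hg hf
  refine bsd_mk hD (Pool.Agent.H743.X17.RK.fin_pts parts iparts i hm hG hg) hF ?_
  rw [Ne, hF1, hv]
  have hyo : Odd y := hy.2 ((Pool.Agent.H743.X17.finSha_iff parts hm).2 hG)
  have hy0 : (y : ℝ) ≠ 0 := by
    have : y ≠ 0 := by
      rintro rfl
      exact absurd hyo (by decide)
    exact_mod_cast this
  have hT : (Pool.Agent.H743.X17.TamProd (Pool.Agent.H743.X17.WM m) : ℝ) ≠ 0 := by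
    rw [Pool.Agent.H743.X17.tamProd_eq parts hm]
    split_ifs <;> simp
  have hO' : Pool.Agent.Y700.Omega (Pool.Agent.H743.X17.WM m) ≠ 0 := hO.ne'
  intro h2
  rw [Complex.ofReal_eq_zero] at h2
  have h3 : (y : ℝ) ^ 2 * (Pool.Agent.H743.X17.TamProd (Pool.Agent.H743.X17.WM m) : ℝ) / 16 *
      Pool.Agent.Y700.Omega (Pool.Agent.H743.X17.WM m) ≠ 0 := by positivity
  exact h3 h2

lemma all17_iff {m : ℤ} (hm : Squarefree m) (h1 : m ≠ 1) :
    All17 m ↔ Pool.Agent.H743.X17.Sys m :=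
  ⟨fun h => (trivial3_iff hm).1 h.1, fun h => ⟨(trivial3_iff hm).2 h, fun _ hj => bsd17 hm h1 h hj⟩⟩

/-! #### `X_0(15)`, `X_0(21)`, `X_0(24)` -/

/-- the index -/
def jx (i : Fin 3) : Fin 7 := ⟨i.1 + 4, by omega⟩

lemma A_jx (i : Fin 3) : A (jx i) = -27 * Pool.Agent.H743.JL.al3 i := by
  fin_cases i <;> norm_num [A, jx, Pool.Agent.H743.JL.al3]

lemma B_jx (i : Fin 3) : B (jx i) = -54 * Pool.Agent.H743.JL.be3 i := by
  fin_cases i <;> norm_num [B, jx, Pool.Agent.H743.JL.be3]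

lemma fam_jx (i : Fin 3) (m : ℤ) : Fam (jx i) m ↔ Pool.Agent.H743.JL.Fam i m := by
  fin_cases i <;> exact Iff.rfl

lemma ge4 {j : Fin 7} (h : 4 ≤ j) : ∃ i : Fin 3, j = jx i := by
  have h' : 4 ≤ j.1 := h
  exact ⟨⟨j.1 - 4, by omega⟩, Fin.ext (by show j.1 = j.1 - 4 + 4; omega)⟩

lemma fam_neg {j : Fin 7} (hj : 4 ≤ j) {m : ℤ} (h : Fam j m) : m < 0 ∧ m ≠ -1 := by
  obtain ⟨i, rfl⟩ := ge4 hj
  rw [fam_jx] at h
  fin_cases i
  · obtain ⟨h1, h2⟩ := h
    exact ⟨h1, by rintro rfl; omega⟩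
  · obtain ⟨h1, h2, h3⟩ := h
    exact ⟨h1, by rintro rfl; omega⟩
  · obtain ⟨h1, h2⟩ := h
    exact ⟨h1, by rintro rfl; omega⟩

lemma curve {j : Fin 7} (hj : 4 ≤ j) {m : ℤ} (hm : Squarefree m) (hF : Fam j m) {a b : ℤ}
    (h : Equ j m a b) : (TR a b ↔ Pool.Agent.H743.JL.H4 m) ∧
      ∃ F : ℂ → ℂ, IsI a b F ∧ (Pool.Agent.H743.JL.H4 m → F 1 ≠ 0) := by
  obtain ⟨i, rfl⟩ := ge4 hj
  rw [fam_jx] at hF
  obtain ⟨g, hg, ha, hb⟩ := h
  rw [A_jx] at ha
  rw [B_jx] at hb
  push_cast at ha hb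
  exact Pool.Agent.H743.JL.cv i m a b g hm hF hg ha hb

lemma equ_self (j : Fin 7) (m : ℤ) : Equ j m (A j * m ^ 2) (B j * m ^ 3) :=
  ⟨1, one_ne_zero, by push_cast; ring, by push_cast; ring⟩

lemma trivial_iff {j : Fin 7} (hj : 4 ≤ j) {m : ℤ} (hm : Squarefree m) (hF : Fam j m) :
    Trivial2 j m ↔ Pool.Agent.H743.JL.H4 m := (curve hj hm hF (equ_self j m)).1

lemma noFour_iff {m : ℤ} (hm : Squarefree m) (h0 : m < 0) (h1 : m ≠ -1) :
    NoFour m ↔ Pool.Agent.H743.JL.H4 m := Pool.Agent.H743.JL.nf m h0 h1 hm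

lemma bsd4 {j : Fin 7} (hj : 4 ≤ j) {m : ℤ} (hm : Squarefree m) (hF : Fam j m)
    (hH : Pool.Agent.H743.JL.H4 m) : BSD j m := by
  intro a b h
  obtain ⟨h1, F, hF1, hF2⟩ := curve hj hm hF h
  exact bsd_mk (disc_ne hm h) (h1.2 hH).1 hF1 (hF2 hH)

lemma all4_iff {m : ℤ} (hm : Squarefree m) (h0 : m < 0) (h1 : m ≠ -1) :
    All4 m ↔ Pool.Agent.H743.JL.H4 m :=
  ⟨fun h => (noFour_iff hm h0 h1).1 h.1, fun h => ⟨(noFour_iff hm h0 h1).2 h,
    fun _ hj hF => ⟨(trivial_iff hj hm hF).2 h, bsd4 hj hm hF h⟩⟩⟩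

lemma num_eq (P : ℤ → Prop) (X : ℕ) : num P X = Pool.Agent.N919.BS.NS P X := by
  classical
  unfold num Pool.Agent.N919.BS.NS
  congr 1

lemma num_mono {P Q : ℤ → Prop} (h : ∀ m, Squarefree m → P m → Q m) (X : ℕ) : num P X ≤ num Q X := by
  classical
  unfold num
  refine Finset.card_le_card fun m hm => ?_
  rw [Finset.mem_filter] at hm ⊢
  exact ⟨hm.1, hm.2.1, h m hm.2.1 hm.2.2⟩

lemma fam_ix (i : Fin 4) (m : ℤ) : Fam (ix i) m ↔ m ≠ 1 := by
  fin_cases i <;> exact Iff.rfl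

end proof

open Classical in
theorem result :
    -- (1) the 2-converse
    (∀ (j : Fin 7) (m : ℤ), Squarefree m → Fam j m → (Trivial2 (opt j) m ↔ Crit j m) ∧
      (Trivial2 (opt j) m → BSD j m)) ∧
    -- (2) the joint law
    (∀ (T T' : Finset ℤ) (inf : Prop) (S : Finset ℕ) (d₀ : ℤ), (∀ t ∈ T, Squarefree t) →
      (∀ t ∈ T', Squarefree t ∧ tw t d₀ < 0) → (∀ p ∈ S, p.Prime) → Squarefree d₀ →
      (∃ (δ : ℝ) (X₀ : ℕ), 0 < δ ∧ ∀ X : ℕ, X₀ ≤ X → δ * X ≤ (num (Cls T T' inf S d₀) X : ℝ)) ∧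
      ∀ U ⊆ T.filter (fun t => Root (tw t d₀)), ∀ U' ⊆ T',
        Tendsto (fun X : ℕ => (num (fun m => Cls T T' inf S d₀ m ∧
            (∀ t ∈ T, (All17 (tw t m) ↔ t ∈ U)) ∧ ∀ t ∈ T', (All4 (tw t m) ↔ t ∈ U')) X : ℝ) /
          (num (Cls T T' inf S d₀) X : ℝ)) atTop
          (𝓝 (c ^ U.card * (1 - c) ^ (T.filter (fun t => Root (tw t d₀)) \ U).card *
            (η ^ U'.card * (1 - η) ^ (T' \ U').card)))) ∧
    -- (3) the natural density in all the squarefree integers
    Tendsto (fun X : ℕ => (num All17 X : ℝ) / (num (fun _ => True) X : ℝ)) atTop (𝓝 (c / 2)) ∧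
    0.4194 < c ∧ c < 0.4195 ∧ 0.2887 < η ∧ η < 0.2889 := by
  refine ⟨fun j m hm hF => ?_, ?_, ?_, Pool.Agent.H743.X17.c2_bounds.1,
    Pool.Agent.H743.X17.c2_bounds.2, Pool.Agent.N916.GB.eta_bounds.1,
    Pool.Agent.N916.GB.eta_bounds.2⟩
  · by_cases hj : j ≤ 3
    · have ho : opt j = 3 := if_pos hj
      have hc : Crit j m ↔ Good m := by
        unfold Crit
        rw [if_pos hj]
      rw [ho, hc]
      refine ⟨trivial3_iff hm, fun h => ?_⟩
      obtain ⟨i, rfl⟩ := le3 hj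
      exact bsd17 hm ((fam_ix i m).1 hF) ((trivial3_iff hm).1 h) hj
    · have ho : opt j = j := if_neg hj
      have hc : Crit j m ↔ NoFour m := by
        unfold Crit
        rw [if_neg hj]
      have hj4 : 4 ≤ j := by
        rw [not_le] at hj
        exact hj
      obtain ⟨h0, h1⟩ := fam_neg hj4 hF
      rw [ho, hc, trivial_iff hj4 hm hF, noFour_iff hm h0 h1]
      exact ⟨Iff.rfl, bsd4 hj4 hm hF⟩
  · intro T T' inf S d₀ hT hT' hS hd
    refine ⟨(Pool.Agent.H743.JL.fi2 T T' inf S d₀ hT hT' hS hd).1, fun U hU U' hU' => ?_⟩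
    exact Pool.Agent.H743.JL.tf All17 All4 (fun d hd h1 => all17_iff hd h1)
      (fun d h0 hd h1 => all4_iff hd h0 h1) T T' inf S d₀ hT hT' hS hd U hU U' hU'
  · exact Pool.Agent.H743.X17.dens_all Pool.Agent.H743.X17.parts fun d hd h1 => all17_iff hd h1

end Pool.Agent.Results.MP_696deb_nt.SimultaneousTwists
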