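import Pool.Agent.H468.X15S.Top

/-!
# A converse to the theorem of Gross-Zagier and Kolyvagin at the prime two for the quadratic twists of
# `X_0(15)`

`E_D : y² = x³ - 12987 D² x - 263466 D³` is the quadratic twist by `D` of the curve
`X_0(15) : y² + x y + y = x³ + x² - 10 x - 10` (another equation of `E_D` is
`Y² = X (X + 16 D) (X + 25 D)`).  The curve has no complex multiplication, all its points of order two
are rational, and it has a rational cyclic isogeny of degree `4`.  `D ≠ 1` is any squarefree number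
`≡ 1` or `49` modulo `60`, with no condition on the prime factors.

The theorem:
* if `E_D(ℚ)` is finite and `Ш(E_D/ℚ)` has no element of order two, then the statement of the problem
  holds for `E_D`, with both sides `0`; in other words, if `L(E_D, 1) = 0` then `E_D(ℚ)` is infinite or
  `Ш(E_D/ℚ)[2] ≠ 0`.  (Kolyvagin's theorem is the implication in the other direction, from
  `L(E_D, 1) ≠ 0` to the finiteness of `E_D(ℚ)` and of the Tate-Shafarevich group.)
* the condition is equivalent to an explicit criterion `Good D` in terms of quadratic symbols, and holds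
  for exactly the proportion `c = (1 - 1/2) (1 - 1/4) (1 - 1/8) ⋯ = 0.2887...` of the `D`.

Proof.  The `L`-values: `Pool/Graph/.../H757_X15` (the sum of the modular symbols over the quadratic
character is `4^(k+1) y²`, and `y` is odd if and only if `Good D`) and the proportion:
`Pool/Graph/.../H757_X15/DN`, by helper757 and their team.  The 2-Selmer groups: `Pool/Agent/H468/X15`
and `Pool/Agent/H468/X15S`, with the definitions and general lemmas of `Pool/Graph/R_seed8/TH841/SH`.
If `Good D` fails, then there is a divisor `d` of `D` such that the class of `(d, d, 1)` is everywhere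
locally soluble: at the primes of good reduction this follows from a theorem of Lang's type for the
points of order two of the reduced curve, at the prime two by inspection, and at the other places `d` or
`-D/d` is a square; and the class does not come from a rational point if `E_D(ℚ)` is finite.
-/

set_option autoImplicit false

open Filter Topology

namespace Pool.Agent.Results.MP_696deb_nt.TwoConverseX15

open Pool.Agent.TH841.SH.D (Sha)

/-- `N_p`: the number of pairs `(x, y) ∈ (ℤ/p)²` with `y² = x³ + a x + b`. -/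
noncomputable def pointCount (a b : ℤ) (p : ℕ) : ℕ :=
  Nat.card {q : ZMod p × ZMod p // q.2 ^ 2 = q.1 ^ 3 + (a : ZMod p) * q.1 + (b : ZMod p)}

/-- `p` is a prime not dividing `2 Δ`, `Δ = -4 a³ - 27 b²`. -/
def GoodPrime (a b : ℤ) (p : ℕ) : Prop :=
  p.Prime ∧ ¬ ((p : ℤ) ∣ 2 * (-4 * a ^ 3 - 27 * b ^ 2))

open Classical in
/-- `F` is the `L`-function of `E : y² = x³ + a x + b` (in the form of the problem): it is entire and
for `Re s > 3/2` it is the incomplete product `∏_{p ∤ 2Δ} (1 - a_p p^{-s} + p^{1-2s})⁻¹`,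
`a_p = p - N_p`. -/
def IsL (a b : ℤ) (F : ℂ → ℂ) : Prop :=
  Differentiable ℂ F ∧ ∀ s : ℂ, (3 : ℝ) / 2 < s.re →
    HasProd (fun p : ℕ => if GoodPrime a b p then
      (1 - ((p : ℂ) - (pointCount a b p : ℂ)) * (p : ℂ) ^ (-s) + (p : ℂ) ^ (1 - 2 * s))⁻¹ else 1)
      (F s)

/-- the group `E(ℚ)` for `E : y² = x³ + a x + b` -/
abbrev Points (a b : ℤ) : Type :=
  (({ a₁ := 0, a₂ := 0, a₃ := 0, a₄ := (a : ℚ), a₆ := (b : ℚ) } : WeierstrassCurve ℚ).toAffine).Point

/-- The statement of the problem for `E : y² = x³ + a x + b`, with the additional information that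
both sides are `0`: the `L`-function of `E` is entire, its order of vanishing at `s = 1` is the rank
of `E(ℚ)`, the rank is `0`, and `E(ℚ)` is finite. -/
def BSDRankZero (a b : ℤ) : Prop :=
  4 * a ^ 3 + 27 * b ^ 2 ≠ 0 ∧ Finite (Points a b) ∧ ∃ F : ℂ → ℂ, IsL a b F ∧
    analyticOrderAt F 1 = ((Module.finrank ℤ (Points a b) : ℕ) : ℕ∞) ∧
    Module.finrank ℤ (Points a b) = 0

/-- The rank form of the conjecture, with rank `0`, for the quadratic twist by `D` of `X_0(15)`,
`E_D : y² = x³ - 12987 D² x - 263466 D³`. -/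
def TwistBSD (D : ℕ) : Prop := BSDRankZero (-12987 * (D : ℤ) ^ 2) (-263466 * (D : ℤ) ^ 3)

/-- the family: the squarefree numbers `≡ 1` or `49` modulo `60` -/
def Family (D : ℕ) : Prop := Squarefree D ∧ (D % 60 = 1 ∨ D % 60 = 49)

open Classical in
/-- the number of the `D ≤ X` of the family with the property `P` -/
noncomputable def num (P : ℕ → Prop) (X : ℕ) : ℕ :=
  ((Finset.Icc 1 X).filter fun D => Family D ∧ P D).card

/-- the quadratic twist by `D` of `X_0(15)` -/
def E (D : ℕ) : WeierstrassCurve ℚ :=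
  { a₁ := 0, a₂ := 0, a₃ := 0, a₄ := ((-12987 * (D : ℤ) ^ 2 : ℤ) : ℚ),
    a₆ := ((-263466 * (D : ℤ) ^ 3 : ℤ) : ℚ) }

/-- `E_D(ℚ)` is finite and `Ш(E_D/ℚ)` has no element of order two. -/
def RankZeroShaTwo (D : ℕ) : Prop :=
  Finite (E D).toAffine.Point ∧ ∀ x : Sha (E D), x + x = 0 → x = 0

/-- The criterion: the only positive divisor `d` of `D` such that `(d/p) = 1` for the primes `p` dividing
`D` and not dividing `d`, `(-(D/d)/p) = 1` for the primes `p` dividing `d`, and `(d/5) = 1`, is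
`d = 1`. -/
def Good (D : ℕ) : Prop := ∀ d : ℕ, d ∣ D →
  (∀ p : ℕ, p.Prime → p ∣ D → ¬ p ∣ d → jacobiSym d p = 1) →
  (∀ p : ℕ, p.Prime → p ∣ d → jacobiSym (-((D / d : ℕ) : ℤ)) p = 1) →
  jacobiSym d 5 = 1 → d = 1

/-- the constant `(1 - 1/2) (1 - 1/4) (1 - 1/8) ⋯ = 0.2887...` -/
noncomputable def c : ℝ := ∏' i : ℕ, (1 - (1 / 2 : ℝ) ^ (i + 1))

section proof

open Pool.Agent.H757_X15.DD (Fm Crit c1 t_LA1 t_DEN2)

lemma bsd_of {D : ℕ} (hD : Family D) (h1 : D ≠ 1) (hG : Good D) : TwistBSD D := by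
  have hfin := Pool.Agent.H468.X15.finite_set hD.1 hD.2 hG h1
  obtain ⟨F, hF, hp, h0, hr⟩ := Pool.Agent.H468.X15.rankBSD_of hD.1 hD.2 h1 hG
  have hD0 : (D : ℤ) ≠ 0 := by exact_mod_cast hD.1.ne_zero
  refine ⟨?_, Pool.Agent.Y687.finite_pt_of_set hfin, F, ⟨hF, fun s hs => ?_⟩, ?_, ?_⟩
  · have e : 4 * (-12987 * (D : ℤ) ^ 2) ^ 3 + 27 * (-263466 * (D : ℤ) ^ 3) ^ 2 =
        (4 * (-12987) ^ 3 + 27 * (-263466) ^ 2) * (D : ℤ) ^ 6 := by ring
    rw [e]
    exact mul_ne_zero (by norm_num) (pow_ne_zero 6 hD0)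
  · refine (congrArg (fun g => HasProd g (F s)) (funext fun p => ?_)).mp (hp s hs)
    by_cases h : GoodPrime (-12987 * (D : ℤ) ^ 2) (-263466 * (D : ℤ) ^ 3) p
    · exact (if_pos h).trans (if_pos h).symm
    · exact (if_neg h).trans (if_neg h).symm
  · have hr' : Module.finrank ℤ (Points (-12987 * (D : ℤ) ^ 2) (-263466 * (D : ℤ) ^ 3)) = 0 := hr
    rw [hr', h0]
    rfl
  · exact hr

lemma c_bounds : 0.2887 < c ∧ c < 0.2888 := t_LA1.2.2.2

lemma card_iff {s : Finset ℕ} {p q : ℕ → Prop} (ip : DecidablePred p) (iq : DecidablePred q)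
    (h : ∀ a, p a ↔ q a) : (@Finset.filter ℕ p ip s).card = (@Finset.filter ℕ q iq s).card := by
  have hpq : p = q := funext fun a => propext (h a)
  subst hpq
  congr

lemma dens : Tendsto (fun X : ℕ => (num (fun _ => True) X : ℝ) / X) atTop
    (𝓝 (5 / (16 * Real.pi ^ 2))) := by
  have h := t_DEN2
  refine h.congr fun X => ?_
  congr 2
  exact card_iff _ _ fun D => ⟨fun h => ⟨h, trivial⟩, fun h => h.1⟩

open Classical in
/-- the elements counted by `num` -/
noncomputable def fam (P : ℕ → Prop) (X : ℕ) : Finset ℕ :=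
  (Finset.Icc 1 X).filter fun D => Family D ∧ P D

lemma num_eq (P : ℕ → Prop) (X : ℕ) : num P X = (fam P X).card := rfl

lemma mem_fam {P : ℕ → Prop} {X D : ℕ} : D ∈ fam P X ↔ D ∈ Finset.Icc 1 X ∧ Family D ∧ P D := by
  simp only [fam, Finset.mem_filter]

lemma num_mono {P Q : ℕ → Prop} (X : ℕ) (h : ∀ D, Family D → P D → Q D) : num P X ≤ num Q X := by
  rw [num_eq, num_eq]
  refine Finset.card_le_card fun D hD => ?_
  rw [mem_fam] at hD ⊢
  exact ⟨hD.1, hD.2.1, h D hD.2.1 hD.2.2⟩

lemma num_or {P Q : ℕ → Prop} (X : ℕ) : num (fun D => P D ∨ Q D) X ≤ num P X + num Q X := by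
  rw [num_eq, num_eq, num_eq]
  refine le_trans (Finset.card_le_card ?_) (Finset.card_union_le _ _)
  intro D hD
  rw [mem_fam] at hD
  rw [Finset.mem_union, mem_fam, mem_fam]
  rcases hD.2.2 with h | h
  · exact Or.inl ⟨hD.1, hD.2.1, h⟩
  · exact Or.inr ⟨hD.1, hD.2.1, h⟩

lemma num_mem (T : Finset ℕ) (X : ℕ) : num (fun D => D ∈ T) X ≤ T.card := by
  rw [num_eq]
  refine Finset.card_le_card fun D hD => ?_
  rw [mem_fam] at hD
  exact hD.2.2

lemma prop_c : Tendsto (fun X : ℕ => (num Good X : ℝ) / (num (fun _ => True) X : ℝ)) atTop (𝓝 c) := by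
  have h := Pool.Agent.H757_X15.DD.t_DEN
  refine h.congr fun X => ?_
  congr 2
  · exact card_iff _ _ fun D => ⟨fun h => ⟨⟨h.1, h.2.1⟩, h.2.2⟩, fun h => ⟨h.1.1, h.1.2, h.2⟩⟩
  · exact card_iff _ _ fun D => ⟨fun h => ⟨h, trivial⟩, fun h => h.1⟩

lemma sel_iff {D : ℕ} (hD : Family D) (h1 : D ≠ 1) : RankZeroShaTwo D ↔ Good D :=
  Pool.Agent.H468.X15.sha_iff_crit (Pool.Agent.H468.X15.mod_short hD.1.ne_zero _ _ rfl rfl)
    hD.1 hD.2 h1 fun hC => Pool.Agent.Y687.finite_pt_of_set
      (Pool.Agent.H468.X15.finite_set hD.1 hD.2 hC h1)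

lemma num_atTop : Tendsto (fun X : ℕ => (num (fun _ => True) X : ℝ)) atTop atTop := by
  have h1 : Tendsto (fun X : ℕ => (num (fun _ => True) X : ℝ) / X * X) atTop atTop :=
    dens.pos_mul_atTop (by positivity) tendsto_natCast_atTop_atTop
  refine h1.congr' ?_
  filter_upwards [eventually_gt_atTop 0] with X hX
  have : (X : ℝ) ≠ 0 := by exact_mod_cast hX.ne'
  field_simp

lemma num_near {P Q : ℕ → Prop} (h : ∀ D, Family D → D ≠ 1 → P D → Q D) (X : ℕ) :
    num P X ≤ num Q X + 1 := by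
  refine le_trans (num_mono (Q := fun D => Q D ∨ D ∈ ({1} : Finset ℕ)) X fun D hD hP => ?_)
    (le_trans (num_or X) (Nat.add_le_add_left (num_mem {1} X) _))
  by_cases h1 : D = 1
  · exact Or.inr (Finset.mem_singleton.2 h1)
  · exact Or.inl (h D hD h1 hP)

lemma prop_sel : Tendsto (fun X : ℕ => (num RankZeroShaTwo X : ℝ) / (num (fun _ => True) X : ℝ))
    atTop (𝓝 c) := by
  have h0 : Tendsto (fun X : ℕ => 1 / (num (fun _ => True) X : ℝ)) atTop (𝓝 0) :=
    tendsto_const_nhds.div_atTop num_atTop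
  have h1 : Tendsto (fun X : ℕ => ((num RankZeroShaTwo X : ℝ) - num Good X) /
      (num (fun _ => True) X : ℝ)) atTop (𝓝 0) := by
    refine squeeze_zero_norm (fun X => ?_) h0
    rw [norm_div, Real.norm_eq_abs, Real.norm_eq_abs, Nat.abs_cast]
    refine div_le_div_of_nonneg_right ?_ (Nat.cast_nonneg _)
    have k1 := num_near (P := RankZeroShaTwo) (Q := Good) (fun D hD h1 h => (sel_iff hD h1).1 h) X
    have k2 := num_near (P := Good) (Q := RankZeroShaTwo) (fun D hD h1 h => (sel_iff hD h1).2 h) X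
    have k1' : (num RankZeroShaTwo X : ℝ) ≤ num Good X + 1 := by exact_mod_cast k1
    have k2' : (num Good X : ℝ) ≤ num RankZeroShaTwo X + 1 := by exact_mod_cast k2
    rw [abs_le]
    constructor <;> linarith
  have h2 := prop_c.add h1
  rw [add_zero] at h2
  refine h2.congr fun X => ?_
  rw [← add_div]
  congr 1
  ring

end proof

theorem result :
    (∀ D : ℕ, Family D → D ≠ 1 → RankZeroShaTwo D → TwistBSD D) ∧
    (∀ D : ℕ, Family D → D ≠ 1 → (RankZeroShaTwo D ↔ Good D)) ∧
    Tendsto (fun X : ℕ => (num RankZeroShaTwo X : ℝ) / (num (fun _ => True) X : ℝ)) atTop (𝓝 c) ∧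
    Tendsto (fun X : ℕ => (num (fun _ => True) X : ℝ) / X) atTop (𝓝 (5 / (16 * Real.pi ^ 2))) ∧
    0.2887 < c ∧ c < 0.2888 :=
  ⟨fun _ hD h1 h => bsd_of hD h1 ((sel_iff hD h1).1 h), fun _ hD h1 => sel_iff hD h1, prop_sel,
    dens, c_bounds⟩

end Pool.Agent.Results.MP_696deb_nt.TwoConverseX15
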